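import Pool.Agent.H89.TRI.Defs

open MeasureTheory Set Filter Topology InnerProductSpace
open scoped Real ContDiff Laplacian

namespace Pool.TRI

/-- block A: neighbourhood of the equilateral triangle, ordered coefficients -/
def NearStmt : Prop :=
  ∀ (T : Set ℂ) (B : Bary T) (u : ℂ → ℝ), IsExit T u →
    B.c 2 ≤ B.c 1 → B.c 1 ≤ B.c 0 → (1 - 6 / 1000) * B.c 0 ≤ B.c 2 →
    ¬ (B.c 0 = B.c 1 ∧ B.c 1 = B.c 2) →
    lambda1 T * sSup (u '' T) < 8 * π ^ 2 / 27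

/-- the equilateral triangle -/
def EquiStmt : Prop :=
  ∀ (T : Set ℂ) (B : Bary T) (u : ℂ → ℝ), IsExit T u →
    B.c 0 = B.c 1 → B.c 1 = B.c 2 → lambda1 T * sSup (u '' T) = 8 * π ^ 2 / 27

/-- all triangles away from the equilateral one, ordered coefficients -/
def FarStmt : Prop :=
  ∀ (T : Set ℂ) (B : Bary T) (u : ℂ → ℝ), IsExit T u →
    B.c 2 ≤ B.c 1 → B.c 1 ≤ B.c 0 → B.c 2 < (1 - 6 / 1000) * B.c 0 →
    lambda1 T * sSup (u '' T) < 8 * π ^ 2 / 27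

/-- existence of barycentric data for a non-degenerate triangle, with the opposite vertex relation -/
def BaryStmt : Prop :=
  ∀ A B C : ℂ, AffineIndependent ℝ ![A, B, C] →
    ∃ D : Bary (tri A B C), D.x 0 A = 1 ∧ D.x 1 B = 1 ∧ D.x 2 C = 1 ∧
      D.x 0 B = 0 ∧ D.x 0 C = 0 ∧ D.x 1 A = 0 ∧ D.x 1 C = 0 ∧ D.x 2 A = 0 ∧ D.x 2 B = 0

/-- the final theorem -/
def FinalStmt : Prop :=
  ∀ A B C : ℂ, AffineIndependent ℝ ![A, B, C] → ∀ u : ℂ → ℝ, IsExit (tri A B C) u →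
    lambda1 (tri A B C) * sSup (u '' tri A B C) ≤ 8 * π ^ 2 / 27 ∧
    (lambda1 (tri A B C) * sSup (u '' tri A B C) = 8 * π ^ 2 / 27 ↔
      dist A B = dist B C ∧ dist B C = dist C A)

end Pool.TRI
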