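import Pool.Agent.H7.TRI.Stmts

/-!
Board `tri`, row TWN: twins.
-/

set_option autoImplicit false

open Finset

namespace Pool.TRI

theorem TWN_one (h1 : ETBStmt) {V : Type} [Fintype V] [DecidableEq V] {G : SimpleGraph V}
    {d m : ℕ} (H : Hyp G d m) {C : Finset V} {w z : V} (hw : w ∈ C) (hz : z ∈ C \ cn G w) :
    tw G d C w + 1 ≤ df G C z := by
  classical
  have hz' := mem_sdiff.1 hz
  unfold tw df
  rw [← card_insert_of_notMem (a := w) (s := (XX G C ∩ nb G w).filter (fun u => et G d w u ≤ 0))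
    (fun h => self_notMem_nb w (mem_inter.1 (mem_filter.1 h).1).2)]
  apply card_le_card
  intro u hu
  rw [mem_sdiff]
  rcases mem_insert.1 hu with rfl | hu
  · exact ⟨hw, fun h => hz'.2 (mem_cn_comm.1 h)⟩
  · obtain ⟨h2, h3⟩ := mem_filter.1 hu
    obtain ⟨h4, h5⟩ := mem_inter.1 h2
    have h6 := (h1 V G d m H w u (mem_nb.1 h5)).2.2.2 h3
    refine ⟨(mem_XX.1 h4).1, fun h => hz'.2 ?_⟩
    rw [h6]
    exact mem_cn_comm.1 h

theorem TWN_thm (h1 : ETBStmt) : TWNStmt := by
  intro V _ _ G d m H C _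
  classical
  have key : ∀ w ∈ C, 1 ≤ df G C w →
      (tw G d C w : ℤ) ≤ ∑ z ∈ C \ cn G w, ((df G C z : ℤ) - 1) := by
    intro w hw hd
    obtain ⟨z₀, hz₀⟩ := card_pos.1 (show 0 < (C \ cn G w).card from hd)
    have h2 : ∀ z ∈ C \ cn G w, (tw G d C w : ℤ) ≤ (df G C z : ℤ) - 1 := by
      intro z hz
      have := TWN_one h1 H hw hz
      omega
    refine (h2 z₀ hz₀).trans ?_
    refine single_le_sum (f := fun z => (df G C z : ℤ) - 1) (fun z hz => ?_) hz₀
    have := h2 z hz
    show 0 ≤ (df G C z : ℤ) - 1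
    omega
  have hdis : Disjoint (Lf G C) (Jc G C) := by
    rw [Finset.disjoint_left]
    intro w hw hw'
    have h2 := (mem_Lf.1 hw).2.1
    have h3 := (mem_Jc.1 hw').2
    omega
  have hle : ∀ w ∈ C, 0 ≤ ∑ z ∈ C \ cn G w, ((df G C z : ℤ) - 1) := by
    intro w hw
    apply sum_nonneg
    intro z hz
    have := TWN_one h1 H hw hz
    omega
  calc ∑ w ∈ Lf G C, (tw G d C w : ℤ) + ∑ w ∈ Jc G C, (tw G d C w : ℤ)
      = ∑ w ∈ Lf G C ∪ Jc G C, (tw G d C w : ℤ) := (sum_union hdis).symm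
    _ ≤ ∑ w ∈ Lf G C ∪ Jc G C, ∑ z ∈ C \ cn G w, ((df G C z : ℤ) - 1) := by
        apply sum_le_sum
        intro w hw
        rcases mem_union.1 hw with hw | hw
        · exact key w (mem_Lf.1 hw).1 (by have := (mem_Lf.1 hw).2.1; omega)
        · exact key w (mem_Jc.1 hw).1 (by have := (mem_Jc.1 hw).2; omega)
    _ ≤ ∑ w ∈ C, ∑ z ∈ C \ cn G w, ((df G C z : ℤ) - 1) := by
        apply sum_le_sum_of_subset_of_nonneg
        · intro w hw
          rcases mem_union.1 hw with hw | hw
          · exact (mem_Lf.1 hw).1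
          · exact (mem_Jc.1 hw).1
        · intro w hw _
          exact hle w hw
    _ = ∑ z ∈ C, ∑ w ∈ C \ cn G z, ((df G C z : ℤ) - 1) := by
        apply sum_comm'
        intro w z
        rw [mem_sdiff, mem_sdiff, mem_cn_comm]
        tauto
    _ = ∑ z ∈ C, (df G C z : ℤ) * ((df G C z : ℤ) - 1) := by
        apply sum_congr rfl
        intro z _
        rw [sum_const, nsmul_eq_mul]
        rfl
    _ = ∑ z ∈ Jc G C, (df G C z : ℤ) * ((df G C z : ℤ) - 1) := by
        symm
        apply sum_subset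
        · intro z hz
          exact (mem_Jc.1 hz).1
        · intro z hz hz'
          have h2 : df G C z < 2 := by
            by_contra h
            exact hz' (mem_Jc.2 ⟨hz, by omega⟩)
          interval_cases h : df G C z <;> simp

end Pool.TRI
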