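import Pool.Agent.H89.TRI.Lib

open MvPolynomial

namespace Pool.TRI.K

section
variable {A M α β γ κ : Type} [CommSemiring A] [AddCommMonoid M] [Module A M]

private theorem zl_lin (f : γ → M) (P : γ → Prop) (add : γ → γ → γ)
    (hadd : ∀ x y, P x → P y → P (add x y) ∧ f (add x y) = f x + f y) (l m : List γ)
    (hl : ∀ x ∈ l, P x) (hm : ∀ x ∈ m, P x) (h : l.length ≤ m.length) (y z : A) :
    (∀ x ∈ zl add l m, P x) ∧
    lin f (zl add l m) y z = z ^ (m.length - l.length) • lin f l y z + lin f m y z := by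
  induction l generalizing m with
  | nil => simp only [zl_nil, lin_nil, smul_zero, zero_add]; exact ⟨hm, trivial⟩
  | cons a l ih => cases m with
    | nil => simp at h
    | cons b m =>
      simp only [List.length_cons, add_le_add_iff_right] at h
      have h1 := hadd a b (hl a (by simp)) (hm b (by simp))
      obtain ⟨h2, h3⟩ := ih m (fun x hx => hl x (by simp [hx])) (fun x hx => hm x (by simp [hx])) h
      refine ⟨?_, ?_⟩
      · intro x hx
        simp only [zl_cons, List.mem_cons] at hx
        rcases hx with rfl | hx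
        · exact h1.1
        · exact h2 x hx
      · simp only [zl_cons, lin_cons, h3, h1.2, zl_length, List.length_cons, Nat.add_sub_add_right, smul_add, smul_smul]
        have e1 : max l.length m.length = m.length := max_eq_right h
        rw [e1]
        have e2 : z ^ m.length = z ^ (m.length - l.length) * z ^ l.length := by
          rw [← pow_add, Nat.sub_add_cancel h]
        rw [e2, mul_comm y (z ^ (m.length - l.length))]
        abel

private theorem cv_lin (f : γ → M) (P : γ → Prop) (add : γ → γ → γ)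
    (hadd : ∀ x y, P x → P y → P (add x y) ∧ f (add x y) = f x + f y)
    (sm : κ → β → γ) (g : κ → A) (h : β → M) (Q : β → Prop) (R : κ → Prop)
    (hsm : ∀ a b, R a → Q b → P (sm a b) ∧ f (sm a b) = g a • h b)
    (c : List κ) (E : List β) (hc : ∀ a ∈ c, R a) (hE : ∀ b ∈ E, Q b) (hE0 : E ≠ []) (y z : A) :
    (∀ x ∈ cv add sm c E, P x) ∧ lin f (cv add sm c E) y z = lin g c y z • lin h E y z := by
  obtain ⟨e, E, rfl⟩ := List.exists_cons_of_ne_nil hE0
  induction c with
  | nil => simp
  | cons a c ih =>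
    obtain ⟨ih1, ih2⟩ := ih (fun x hx => hc x (by simp [hx]))
    have hmap : ∀ x ∈ E.map (sm a), P x := by
      intro x hx
      obtain ⟨b, hb, rfl⟩ := List.mem_map.1 hx
      exact (hsm a b (hc a (by simp)) (hE b (by simp [hb]))).1
    have he := hsm a e (hc a (by simp)) (hE e (by simp))
    have hlin : lin f (E.map (sm a)) y z = g a • lin h E y z := by
      rw [lin_map, ← lin_smul]
      exact lin_congr _ (fun b hb => (hsm a b (hc a (by simp)) (hE b (by simp [hb]))).2) _ _
    by_cases h0 : c = []
    · subst h0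
      simp only [cv_cons, cv_nil, zl_nil']
      refine ⟨?_, ?_⟩
      · intro x hx
        simp only [List.mem_cons] at hx
        rcases hx with rfl | hx
        · exact he.1
        · exact hmap x hx
      · simp only [lin_cons, hlin, he.2, List.length_map, List.length_nil, pow_zero, one_smul, lin_nil, smul_zero,
          add_zero, smul_add, smul_smul]
        rw [mul_comm (z ^ E.length), mul_comm y]
    · have hlen : (cv add sm c (e :: E)).length = c.length + E.length := by
        rw [cv_length _ _ _ _ h0 (by simp), List.length_cons]; omega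
      obtain ⟨h2, h3⟩ := zl_lin f P add hadd (E.map (sm a)) (cv add sm c (e :: E)) hmap ih1
        (by rw [hlen, List.length_map]; omega) y z
      refine ⟨?_, ?_⟩
      · intro x hx
        simp only [cv_cons, List.mem_cons] at hx
        rcases hx with rfl | hx
        · exact he.1
        · exact h2 x hx
      · have e1 : max (E.map (sm a)).length (c.length + E.length) = c.length + E.length := by
          rw [List.length_map]; omega
        have e2 : c.length + E.length - E.length = c.length := by omega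
        rw [cv_cons, lin_cons, h3, zl_length, hlen, e1, hlin, he.2, ih2, List.length_map, e2]
        simp only [lin_cons, smul_eq_mul]
        module

private theorem lin_zip' (P : α → Prop) (g : α → α → α) (f : α → M)
    (h : ∀ a b, P a → P b → P (g a b) ∧ f (g a b) = f a + f b)
    (l m : List α) (hl : l.length = m.length) (h1 : ∀ a ∈ l, P a) (h2 : ∀ a ∈ m, P a) (y z : A) :
    (List.zipWith g l m).length = l.length ∧ (∀ a ∈ List.zipWith g l m, P a) ∧
    lin f (List.zipWith g l m) y z = lin f l y z + lin f m y z := by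
  induction l generalizing m with
  | nil => cases m with
    | nil => simp
    | cons b m => simp at hl
  | cons a l ih => cases m with
    | nil => simp at hl
    | cons b m =>
      simp only [List.length_cons, add_left_inj] at hl
      obtain ⟨i1, i2, i3⟩ := ih m hl (fun x hx => h1 x (by simp [hx])) (fun x hx => h2 x (by simp [hx]))
      have h3 := h a b (h1 a (by simp)) (h2 b (by simp))
      refine ⟨by simp [hl], ?_, ?_⟩
      · intro x hx
        simp only [List.zipWith_cons_cons, List.mem_cons] at hx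
        rcases hx with rfl | hx
        · exact h3.1
        · exact i2 x hx
      · simp only [List.zipWith_cons_cons, lin_cons, i3, h3.2, smul_add, i1, hl]
        abel

end

private theorem toP_add (n : ℕ) (P Q : Net) (hP : Sh n P) (hQ : Sh n Q) :
    Sh n (addN P Q) ∧ toP (addN P Q) = toP P + toP Q := by
  induction n generalizing P Q with
  | zero =>
    rw [Sh_zero] at hP hQ; subst hP; subst hQ
    refine ⟨rfl, ?_⟩
    show toP [] = toP [] + toP []
    simp [toP]
  | succ n ih =>
    obtain ⟨r, P, rfl, hr, hP⟩ := (Sh_succ n _).1 hP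
    obtain ⟨r', Q, rfl, hr', hQ⟩ := (Sh_succ n _).1 hQ
    obtain ⟨i1, i2⟩ := ih P Q hP hQ
    have e : addN (r :: P) (r' :: Q) = addR r r' :: addN P Q := rfl
    rw [e]
    refine ⟨⟨?_, i1⟩, ?_⟩
    · rw [addR_eq]; simp [hr, hr']
    · have hx : ∀ R : Net, toP R = ter (A := MP) (fun a : ℤ => (C (a : ℝ) : MP)) R (X 0) (X 1) (X 2) := fun _ => rfl
      rw [hx (addR r r' :: addN P Q), hx (r :: P), hx (r' :: Q)]
      rw [ter_cons, ter_cons, ter_cons, ← hx, ← hx, ← hx, i2, addR_eq,
        lin_zip (fun a b : ℤ => a + b) (fun a : ℤ => (C (a : ℝ) : MP)) (fun a : ℤ => (C (a : ℝ) : MP))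
        (fun a : ℤ => (C (a : ℝ) : MP)) (by intro a b; simp) r r' (by rw [hr, hr'])]
      simp only [smul_add]
      abel

private theorem toP_sm (n : ℕ) (c : ℤ) (P : Net) (hP : Sh n P) :
    Sh n (smN c P) ∧ toP (smN c P) = (c : ℝ) • toP P := by
  have e : smN c P = P.map (List.map (c * ·)) := by
    rw [smN_eq]; congr 1; funext r; exact smR_eq c r
  rw [e]
  refine ⟨(Sh_map _).2 hP, ?_⟩
  unfold toP
  rw [ter_map]
  have : (c : ℝ) • ter (A := MP) (fun a : ℤ => (C (a : ℝ) : MP)) P (X 0) (X 1) (X 2) =
      (LinearMap.lsmul MP MP (C (c : ℝ))) (ter (A := MP) (fun a : ℤ => (C (a : ℝ) : MP)) P (X 0) (X 1) (X 2)) := by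
    rw [LinearMap.lsmul_apply, smul_eq_mul, MvPolynomial.smul_eq_C_mul]
  rw [this, ter_hom]
  congr 1
  funext a
  simp

theorem tabm : TABMStmt := by
  constructor
  · intro n a b a' b' T S hT hS
    have inner : ∀ (t t' : ℝ) (c : List ℤ) (E : List Net), c.length = b + 1 → (E.length = b' + 1 ∧ ∀ P ∈ E, Sh n P) →
        ((cv addN smN c E).length = b + b' + 1 ∧ ∀ P ∈ cv addN smN c E, Sh n P) ∧
        lin (A := ℝ) toP (cv addN smN c E) t t' = lin (A := ℝ) (fun x : ℤ => (x : ℝ)) c t t' • lin (A := ℝ) toP E t t' := by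
      intro t t' c E hc hE
      have hE0 : E ≠ [] := by intro h; rw [h] at hE; simp at hE
      have hc0 : c ≠ [] := by intro h; rw [h] at hc; simp at hc
      obtain ⟨h1, h2⟩ := cv_lin (A := ℝ) toP (Sh n) addN (toP_add n) smN (fun x : ℤ => (x : ℝ)) toP (Sh n) (fun _ => True)
        (fun x P _ hP => toP_sm n x P hP) c E (fun _ _ => trivial) hE.2 hE0 t t'
      refine ⟨⟨?_, h1⟩, h2⟩
      rw [cv_length _ _ _ _ hc0 hE0, hc, hE.1]; omega
    have hS0 : S ≠ [] := by intro h; rw [h] at hS; have := hS.1.1; simp at this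
    have hT0 : T ≠ [] := by intro h; rw [h] at hT; have := hT.1; simp at this
    have outer : ∀ s s' t t' : ℝ, (∀ x ∈ mulTN T S, x.length = b + b' + 1 ∧ ∀ P ∈ x, Sh n P) ∧
        toPT (mulTN T S) s s' t t' = evT T s s' t t' • toPT S s s' t t' := by
      intro s s' t t'
      have hadd : ∀ x y : List Net, (x.length = b + b' + 1 ∧ ∀ P ∈ x, Sh n P) → (y.length = b + b' + 1 ∧ ∀ P ∈ y, Sh n P) →
          ((zw addN x y).length = b + b' + 1 ∧ ∀ P ∈ zw addN x y, Sh n P) ∧
          lin (A := ℝ) toP (zw addN x y) t t' = lin (A := ℝ) toP x t t' + lin (A := ℝ) toP y t t' := by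
        intro x y hx hy
        rw [zw_eq]
        obtain ⟨h1, h2, h3⟩ := lin_zip' (A := ℝ) (Sh n) addN toP (toP_add n) x y (by rw [hx.1, hy.1]) hx.2 hy.2 t t'
        exact ⟨⟨by rw [h1, hx.1], h2⟩, h3⟩
      exact cv_lin (A := ℝ) (fun r => lin (A := ℝ) toP r t t') (fun x : List Net => x.length = b + b' + 1 ∧ ∀ P ∈ x, Sh n P)
        (zw addN) hadd (cv addN smN) (fun r => lin (A := ℝ) (fun x : ℤ => (x : ℝ)) r t t') (fun r => lin (A := ℝ) toP r t t')
        (fun x : List Net => x.length = b' + 1 ∧ ∀ P ∈ x, Sh n P) (fun r => r.length = b + 1)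
        (fun c E hc hE => inner t t' c E hc hE) T S hT.2 (fun r hr => ⟨hS.1.2 r hr, hS.2 r hr⟩) hS0 s s'
    refine ⟨⟨⟨?_, ?_⟩, ?_⟩, fun s s' t t' => (outer s s' t t').2⟩
    · show (cv (zw addN) (cv addN smN) T S).length = _
      rw [cv_length _ _ _ _ hT0 hS0, hT.1, hS.1.1]; omega
    · intro r hr; exact ((outer 0 0 0 0).1 r hr).1
    · intro r hr; exact ((outer 0 0 0 0).1 r hr).2
  · intro a b a' b' T S hT hS
    have inner : ∀ (t t' : ℝ) (c E : List ℤ), c.length = b + 1 → E.length = b' + 1 →
        (cv Int.add Int.mul c E).length = b + b' + 1 ∧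
        lin (A := ℝ) (fun x : ℤ => (x : ℝ)) (cv Int.add Int.mul c E) t t' =
          lin (A := ℝ) (fun x : ℤ => (x : ℝ)) c t t' • lin (A := ℝ) (fun x : ℤ => (x : ℝ)) E t t' := by
      intro t t' c E hc hE
      have hE0 : E ≠ [] := by intro h; rw [h] at hE; simp at hE
      have hc0 : c ≠ [] := by intro h; rw [h] at hc; simp at hc
      obtain ⟨h1, h2⟩ := cv_lin (A := ℝ) (fun x : ℤ => (x : ℝ)) (fun _ => True) Int.add
        (fun x y _ _ => ⟨trivial, Int.cast_add x y⟩) Int.mul (fun x : ℤ => (x : ℝ)) (fun x : ℤ => (x : ℝ)) (fun _ => True)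
        (fun _ => True) (fun x y _ _ => ⟨trivial, Int.cast_mul x y⟩) c E (fun _ _ => trivial) (fun _ _ => trivial) hE0 t t'
      refine ⟨?_, h2⟩
      rw [cv_length _ _ _ _ hc0 hE0, hc, hE]; omega
    have hS0 : S ≠ [] := by intro h; rw [h] at hS; have := hS.1; simp at this
    have hT0 : T ≠ [] := by intro h; rw [h] at hT; have := hT.1; simp at this
    have outer : ∀ s s' t t' : ℝ, (∀ x ∈ mulT T S, x.length = b + b' + 1) ∧
        evT (mulT T S) s s' t t' = evT T s s' t t' * evT S s s' t t' := by
      intro s s' t t'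
      have hadd : ∀ x y : List ℤ, x.length = b + b' + 1 → y.length = b + b' + 1 →
          (zw Int.add x y).length = b + b' + 1 ∧
          lin (A := ℝ) (fun x : ℤ => (x : ℝ)) (zw Int.add x y) t t' =
            lin (A := ℝ) (fun x : ℤ => (x : ℝ)) x t t' + lin (A := ℝ) (fun x : ℤ => (x : ℝ)) y t t' := by
        intro x y hx hy
        rw [zw_eq]
        obtain ⟨h1, _, h3⟩ := lin_zip' (A := ℝ) (fun _ => True) Int.add (fun x : ℤ => (x : ℝ))
          (fun x y _ _ => ⟨trivial, Int.cast_add x y⟩) x y (by rw [hx, hy]) (fun _ _ => trivial) (fun _ _ => trivial) t t'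
        exact ⟨by rw [h1, hx], h3⟩
      exact cv_lin (A := ℝ) (fun r => lin (A := ℝ) (fun x : ℤ => (x : ℝ)) r t t') (fun x : List ℤ => x.length = b + b' + 1)
        (zw Int.add) hadd (cv Int.add Int.mul) (fun r => lin (A := ℝ) (fun x : ℤ => (x : ℝ)) r t t')
        (fun r => lin (A := ℝ) (fun x : ℤ => (x : ℝ)) r t t')
        (fun x : List ℤ => x.length = b' + 1) (fun r => r.length = b + 1)
        (fun c E hc hE => inner t t' c E hc hE) T S hT.2 hS.2 hS0 s s'
    refine ⟨⟨?_, ?_⟩, fun s s' t t' => (outer s s' t t').2⟩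
    · show (cv (zw Int.add) (cv Int.add Int.mul) T S).length = _
      rw [cv_length _ _ _ _ hT0 hS0, hT.1, hS.1]; omega
    · intro r hr; exact (outer 0 0 0 0).1 r hr

end Pool.TRI.K
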