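import Pool.Agent.H97.TRI.ALGA
import Pool.Agent.H97.TRI.ALGD
import Pool.Agent.H97.TRI.ALGM
import Pool.Agent.H97.TRI.CHI
import Pool.Agent.H97.TRI.TREEB
import Pool.Agent.H69.TRI.BOXC
import Pool.Agent.H69.TRI.BOXQ
import Pool.Agent.H69.TRI.COR
import Pool.Agent.H69.TRI.FIN
import Pool.Agent.H69.TRI.MAXC
import Pool.Agent.H69.TRI.MAXQ
import Pool.Agent.H79.TRI.CHART
import Pool.Agent.H79.TRI.EVN
import Pool.Agent.H79.TRI.M123
import Pool.Agent.H79.TRI.SHP
import Pool.Agent.H79.TRI.TABT
import Pool.Agent.H89.TRI.ENMA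
import Pool.Agent.H89.TRI.TABM
import Pool.Agent.H85.TRI.FACW
import Pool.Agent.H85.TRI.LEAF
import Pool.Agent.H85.TRI.ROW
import Pool.Agent.H85.TRI.TR
import Pool.Agent.H34.TRI.PACK
import Pool.Agent.H34.TRI.POSN
import Pool.Agent.H34.TRI.POSQ
import Pool.Agent.H34.TRI.POSR
import Pool.Agent.H34.TRI.TREE
import Pool.Agent.H34.TRI.TREEQ
import Pool.Agent.H19.TRI.RESID
import Pool.Agent.H19.TRI.SUP

/-! Assembly of the soundness of the box checks (five statements still as hypotheses). -/

namespace Pool.TRI.K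

theorem all_chi : CHIStmt := chi row trS
theorem all_tree : TREEStmt := tree all_chi
theorem all_treeb : TREEBStmt := treeb row
theorem all_treeq : TREEQStmt := treeq all_chi trS
theorem all_pack : PACKStmt := pack leaf
theorem all_posn : POSNStmt := posn all_tree all_pack trS
theorem all_chart : CHARTStmt := chart_thm tabm tabt
theorem all_enma : ENMAStmt := enma facw m123_thm algd tabm

theorem box_of (pk2 : PACK2Stmt) (pkr : PACKRStmt) (ta : TABAStmt) (tp : TABPStmt) (bas : BASStmt) (cmp : CMPStmt)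
    (rayf : RAYFStmt) (fpos : FPOSStmt) : BOXCStmt ∧ BOXQStmt := by
  have posr' : POSRStmt := posr all_treeb pkr
  have posq' : POSQStmt := posq all_treeq pk2
  have resid' : RESIDStmt := resid_ alga algm algd ta tabm tabt
  have sup' : SUPStmt := sup shp all_chart resid' all_posn posr' tp trS
  have fin' : FINStmt := fin_ tabm tabt tp
  have cor' : CORStmt := cor sup' all_enma fin' shp all_chart evn bas cmp rayf fpos
  exact ⟨boxc shp (maxc shp all_posn alga algm ta tp) cor', boxq shp (maxq shp posq' alga algm ta tabm tabt tp) cor'⟩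

end Pool.TRI.K
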