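import Pool.Agent.H89.TRI.Stmts
import Pool.Agent.H89.TRI.D.D00
import Pool.Agent.H89.TRI.D.D01
import Pool.Agent.H89.TRI.D.D02
import Pool.Agent.H89.TRI.D.D03
import Pool.Agent.H89.TRI.D.D04
import Pool.Agent.H89.TRI.D.D05
import Pool.Agent.H89.TRI.D.D06
import Pool.Agent.H89.TRI.D.D07
import Pool.Agent.H89.TRI.D.D08
import Pool.Agent.H89.TRI.D.D09
import Pool.Agent.H89.TRI.D.D10
import Pool.Agent.H89.TRI.D.D11
import Pool.Agent.H89.TRI.D.D12
import Pool.Agent.H89.TRI.D.D13
import Pool.Agent.H89.TRI.D.D14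
import Pool.Agent.H89.TRI.D.D15
import Pool.Agent.H89.TRI.D.D16
import Pool.Agent.H89.TRI.D.D17
import Pool.Agent.H89.TRI.D.D18

set_option linter.unusedVariables false

namespace Pool.TRI.K

private theorem good_of {typ : Bool} {U0 U1 V0 V1 : ℤ} (h : BoxGood typ 10000 U0 U1 V0 V1) {u v : ℝ}
    (h1 : (U0 : ℝ) ≤ 10000 * u) (h2 : 10000 * u ≤ (U1 : ℝ)) (h3 : (V0 : ℝ) ≤ 10000 * v) (h4 : 10000 * v ≤ (V1 : ℝ)) :
    Good typ u v := fun T B w hw s hs hc => h T B w hw s u v hs (by push_cast; exact h1) (by push_cast; exact h2)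
      (by push_cast; exact h3) (by push_cast; exact h4) hc

theorem str0_60_0_5000 (hC : BOXCStmt) (hQ : BOXQStmt) (u v : ℝ) (hu0 : 60 ≤ 10000 * u) (hu1 : 10000 * u ≤ 3600)
    (hv0 : 0 ≤ 10000 * v) (hv1 : 10000 * v ≤ 5000) : Good false u v := by
  rcases le_total (10000 * u) 81 with h0 | h0
  · exact good_of (U0 := 60) (U1 := 81) (V0 := 0) (V1 := 5000) (hQ _ _ ok_0_60_81_0_5000) (by push_cast; exact hu0) (by push_cast; exact h0) (by push_cast; exact hv0) (by push_cast; exact hv1)
  rcases le_total (10000 * u) 120 with h1 | h1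
  · exact good_of (U0 := 81) (U1 := 120) (V0 := 0) (V1 := 5000) (hQ _ _ ok_0_81_120_0_5000) (by push_cast; exact h0) (by push_cast; exact h1) (by push_cast; exact hv0) (by push_cast; exact hv1)
  rcases le_total (10000 * u) 152 with h2 | h2
  · exact good_of (U0 := 120) (U1 := 152) (V0 := 0) (V1 := 5000) (hQ _ _ ok_0_120_152_0_5000) (by push_cast; exact h1) (by push_cast; exact h2) (by push_cast; exact hv0) (by push_cast; exact hv1)
  rcases le_total (10000 * u) 220 with h3 | h3
  · exact good_of (U0 := 152) (U1 := 220) (V0 := 0) (V1 := 5000) (hQ _ _ ok_0_152_220_0_5000) (by push_cast; exact h2) (by push_cast; exact h3) (by push_cast; exact hv0) (by push_cast; exact hv1)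
  rcases le_total (10000 * u) 396 with h4 | h4
  · exact good_of (U0 := 220) (U1 := 396) (V0 := 0) (V1 := 5000) (hQ _ _ ok_0_220_396_0_5000) (by push_cast; exact h3) (by push_cast; exact h4) (by push_cast; exact hv0) (by push_cast; exact hv1)
  rcases le_total (10000 * u) 713 with h5 | h5
  · exact good_of (U0 := 396) (U1 := 713) (V0 := 0) (V1 := 5000) (hQ _ _ ok_0_396_713_0_5000) (by push_cast; exact h4) (by push_cast; exact h5) (by push_cast; exact hv0) (by push_cast; exact hv1)
  rcases le_total (10000 * u) 1283 with h6 | h6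
  · exact good_of (U0 := 713) (U1 := 1283) (V0 := 0) (V1 := 5000) (hQ _ _ ok_0_713_1283_0_5000) (by push_cast; exact h5) (by push_cast; exact h6) (by push_cast; exact hv0) (by push_cast; exact hv1)
  rcases le_total (10000 * u) 2050 with h7 | h7
  · exact good_of (U0 := 1283) (U1 := 2050) (V0 := 0) (V1 := 5000) (hQ _ _ ok_0_1283_2050_0_5000) (by push_cast; exact h6) (by push_cast; exact h7) (by push_cast; exact hv0) (by push_cast; exact hv1)
  rcases le_total (10000 * u) 3000 with h8 | h8
  · exact good_of (U0 := 2050) (U1 := 3000) (V0 := 0) (V1 := 5000) (hQ _ _ ok_0_2050_3000_0_5000) (by push_cast; exact h7) (by push_cast; exact h8) (by push_cast; exact hv0) (by push_cast; exact hv1)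
  · exact good_of (U0 := 3000) (U1 := 3600) (V0 := 0) (V1 := 5000) (hQ _ _ ok_0_3000_3600_0_5000) (by push_cast; exact h8) (by push_cast; exact hu1) (by push_cast; exact hv0) (by push_cast; exact hv1)

theorem str0_60_5000_10000 (hC : BOXCStmt) (hQ : BOXQStmt) (u v : ℝ) (hu0 : 60 ≤ 10000 * u) (hu1 : 10000 * u ≤ 3600)
    (hv0 : 5000 ≤ 10000 * v) (hv1 : 10000 * v ≤ 10000) : Good false u v := by
  rcases le_total (10000 * u) 87 with h0 | h0
  · exact good_of (U0 := 60) (U1 := 87) (V0 := 5000) (V1 := 10000) (hQ _ _ ok_0_60_87_5000_10000) (by push_cast; exact hu0) (by push_cast; exact h0) (by push_cast; exact hv0) (by push_cast; exact hv1)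
  rcases le_total (10000 * u) 120 with h1 | h1
  · exact good_of (U0 := 87) (U1 := 120) (V0 := 5000) (V1 := 10000) (hQ _ _ ok_0_87_120_5000_10000) (by push_cast; exact h0) (by push_cast; exact h1) (by push_cast; exact hv0) (by push_cast; exact hv1)
  rcases le_total (10000 * u) 162 with h2 | h2
  · exact good_of (U0 := 120) (U1 := 162) (V0 := 5000) (V1 := 10000) (hQ _ _ ok_0_120_162_5000_10000) (by push_cast; exact h1) (by push_cast; exact h2) (by push_cast; exact hv0) (by push_cast; exact hv1)
  rcases le_total (10000 * u) 259 with h3 | h3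
  · exact good_of (U0 := 162) (U1 := 259) (V0 := 5000) (V1 := 10000) (hQ _ _ ok_0_162_259_5000_10000) (by push_cast; exact h2) (by push_cast; exact h3) (by push_cast; exact hv0) (by push_cast; exact hv1)
  rcases le_total (10000 * u) 466 with h4 | h4
  · exact good_of (U0 := 259) (U1 := 466) (V0 := 5000) (V1 := 10000) (hQ _ _ ok_0_259_466_5000_10000) (by push_cast; exact h3) (by push_cast; exact h4) (by push_cast; exact hv0) (by push_cast; exact hv1)
  rcases le_total (10000 * u) 839 with h5 | h5
  · exact good_of (U0 := 466) (U1 := 839) (V0 := 5000) (V1 := 10000) (hQ _ _ ok_0_466_839_5000_10000) (by push_cast; exact h4) (by push_cast; exact h5) (by push_cast; exact hv0) (by push_cast; exact hv1)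
  rcases le_total (10000 * u) 1342 with h6 | h6
  · exact good_of (U0 := 839) (U1 := 1342) (V0 := 5000) (V1 := 10000) (hQ _ _ ok_0_839_1342_5000_10000) (by push_cast; exact h5) (by push_cast; exact h6) (by push_cast; exact hv0) (by push_cast; exact hv1)
  rcases le_total (10000 * u) 1950 with h7 | h7
  · exact good_of (U0 := 1342) (U1 := 1950) (V0 := 5000) (V1 := 10000) (hQ _ _ ok_0_1342_1950_5000_10000) (by push_cast; exact h6) (by push_cast; exact h7) (by push_cast; exact hv0) (by push_cast; exact hv1)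
  rcases le_total (10000 * u) 2830 with h8 | h8
  · exact good_of (U0 := 1950) (U1 := 2830) (V0 := 5000) (V1 := 10000) (hQ _ _ ok_0_1950_2830_5000_10000) (by push_cast; exact h7) (by push_cast; exact h8) (by push_cast; exact hv0) (by push_cast; exact hv1)
  rcases le_total (10000 * u) 3400 with h9 | h9
  · exact good_of (U0 := 2830) (U1 := 3400) (V0 := 5000) (V1 := 10000) (hQ _ _ ok_0_2830_3400_5000_10000) (by push_cast; exact h8) (by push_cast; exact h9) (by push_cast; exact hv0) (by push_cast; exact hv1)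
  · exact good_of (U0 := 3400) (U1 := 3600) (V0 := 5000) (V1 := 10000) (hQ _ _ ok_0_3400_3600_5000_10000) (by push_cast; exact h9) (by push_cast; exact hu1) (by push_cast; exact hv0) (by push_cast; exact hv1)

theorem str0_3600_0_2500 (hC : BOXCStmt) (hQ : BOXQStmt) (u v : ℝ) (hu0 : 3600 ≤ 10000 * u) (hu1 : 10000 * u ≤ 8400)
    (hv0 : 0 ≤ 10000 * v) (hv1 : 10000 * v ≤ 2500) : Good false u v := by
  rcases le_total (10000 * u) 5220 with h0 | h0
  · exact good_of (U0 := 3600) (U1 := 5220) (V0 := 0) (V1 := 2500) (hQ _ _ ok_0_3600_5220_0_2500) (by push_cast; exact hu0) (by push_cast; exact h0) (by push_cast; exact hv0) (by push_cast; exact hv1)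
  rcases le_total (10000 * u) 7050 with h1 | h1
  · exact good_of (U0 := 5220) (U1 := 7050) (V0 := 0) (V1 := 2500) (hQ _ _ ok_0_5220_7050_0_2500) (by push_cast; exact h0) (by push_cast; exact h1) (by push_cast; exact hv0) (by push_cast; exact hv1)
  · exact good_of (U0 := 7050) (U1 := 8400) (V0 := 0) (V1 := 2500) (hQ _ _ ok_0_7050_8400_0_2500) (by push_cast; exact h1) (by push_cast; exact hu1) (by push_cast; exact hv0) (by push_cast; exact hv1)

theorem str0_3600_2500_5000 (hC : BOXCStmt) (hQ : BOXQStmt) (u v : ℝ) (hu0 : 3600 ≤ 10000 * u) (hu1 : 10000 * u ≤ 8400)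
    (hv0 : 2500 ≤ 10000 * v) (hv1 : 10000 * v ≤ 5000) : Good false u v := by
  rcases le_total (10000 * u) 5220 with h0 | h0
  · exact good_of (U0 := 3600) (U1 := 5220) (V0 := 2500) (V1 := 5000) (hQ _ _ ok_0_3600_5220_2500_5000) (by push_cast; exact hu0) (by push_cast; exact h0) (by push_cast; exact hv0) (by push_cast; exact hv1)
  rcases le_total (10000 * u) 7050 with h1 | h1
  · exact good_of (U0 := 5220) (U1 := 7050) (V0 := 2500) (V1 := 5000) (hQ _ _ ok_0_5220_7050_2500_5000) (by push_cast; exact h0) (by push_cast; exact h1) (by push_cast; exact hv0) (by push_cast; exact hv1)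
  rcases le_total (10000 * u) 7760 with h2 | h2
  · exact good_of (U0 := 7050) (U1 := 7760) (V0 := 2500) (V1 := 5000) (hQ _ _ ok_0_7050_7760_2500_5000) (by push_cast; exact h1) (by push_cast; exact h2) (by push_cast; exact hv0) (by push_cast; exact hv1)
  · exact good_of (U0 := 7760) (U1 := 8400) (V0 := 2500) (V1 := 5000) (hQ _ _ ok_0_7760_8400_2500_5000) (by push_cast; exact h2) (by push_cast; exact hu1) (by push_cast; exact hv0) (by push_cast; exact hv1)

theorem str0_3600_5000_7500 (hC : BOXCStmt) (hQ : BOXQStmt) (u v : ℝ) (hu0 : 3600 ≤ 10000 * u) (hu1 : 10000 * u ≤ 8400)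
    (hv0 : 5000 ≤ 10000 * v) (hv1 : 10000 * v ≤ 7500) : Good false u v := by
  rcases le_total (10000 * u) 4860 with h0 | h0
  · exact good_of (U0 := 3600) (U1 := 4860) (V0 := 5000) (V1 := 7500) (hQ _ _ ok_0_3600_4860_5000_7500) (by push_cast; exact hu0) (by push_cast; exact h0) (by push_cast; exact hv0) (by push_cast; exact hv1)
  rcases le_total (10000 * u) 6170 with h1 | h1
  · exact good_of (U0 := 4860) (U1 := 6170) (V0 := 5000) (V1 := 7500) (hQ _ _ ok_0_4860_6170_5000_7500) (by push_cast; exact h0) (by push_cast; exact h1) (by push_cast; exact hv0) (by push_cast; exact hv1)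
  rcases le_total (10000 * u) 7400 with h2 | h2
  · exact good_of (U0 := 6170) (U1 := 7400) (V0 := 5000) (V1 := 7500) (hQ _ _ ok_0_6170_7400_5000_7500) (by push_cast; exact h1) (by push_cast; exact h2) (by push_cast; exact hv0) (by push_cast; exact hv1)
  · exact good_of (U0 := 7400) (U1 := 8400) (V0 := 5000) (V1 := 7500) (hQ _ _ ok_0_7400_8400_5000_7500) (by push_cast; exact h2) (by push_cast; exact hu1) (by push_cast; exact hv0) (by push_cast; exact hv1)

theorem str0_3600_7500_10000 (hC : BOXCStmt) (hQ : BOXQStmt) (u v : ℝ) (hu0 : 3600 ≤ 10000 * u) (hu1 : 10000 * u ≤ 7000)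
    (hv0 : 7500 ≤ 10000 * v) (hv1 : 10000 * v ≤ 10000) : Good false u v := by
  rcases le_total (10000 * u) 4860 with h0 | h0
  · exact good_of (U0 := 3600) (U1 := 4860) (V0 := 7500) (V1 := 10000) (hQ _ _ ok_0_3600_4860_7500_10000) (by push_cast; exact hu0) (by push_cast; exact h0) (by push_cast; exact hv0) (by push_cast; exact hv1)
  rcases le_total (10000 * u) 6170 with h1 | h1
  · exact good_of (U0 := 4860) (U1 := 6170) (V0 := 7500) (V1 := 10000) (hQ _ _ ok_0_4860_6170_7500_10000) (by push_cast; exact h0) (by push_cast; exact h1) (by push_cast; exact hv0) (by push_cast; exact hv1)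
  · exact good_of (U0 := 6170) (U1 := 7000) (V0 := 7500) (V1 := 10000) (hQ _ _ ok_0_6170_7000_7500_10000) (by push_cast; exact h1) (by push_cast; exact hu1) (by push_cast; exact hv0) (by push_cast; exact hv1)

theorem str0_7000_7500_8750 (hC : BOXCStmt) (hQ : BOXQStmt) (u v : ℝ) (hu0 : 7000 ≤ 10000 * u) (hu1 : 10000 * u ≤ 8400)
    (hv0 : 7500 ≤ 10000 * v) (hv1 : 10000 * v ≤ 8750) : Good false u v := by
  · exact good_of (U0 := 7000) (U1 := 8400) (V0 := 7500) (V1 := 8750) (hQ _ _ ok_0_7000_8400_7500_8750) (by push_cast; exact hu0) (by push_cast; exact hu1) (by push_cast; exact hv0) (by push_cast; exact hv1)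

theorem str0_7000_8750_10000 (hC : BOXCStmt) (hQ : BOXQStmt) (u v : ℝ) (hu0 : 7000 ≤ 10000 * u) (hu1 : 10000 * u ≤ 8400)
    (hv0 : 8750 ≤ 10000 * v) (hv1 : 10000 * v ≤ 10000) : Good false u v := by
  rcases le_total (10000 * u) 7700 with h0 | h0
  · exact good_of (U0 := 7000) (U1 := 7700) (V0 := 8750) (V1 := 10000) (hQ _ _ ok_0_7000_7700_8750_10000) (by push_cast; exact hu0) (by push_cast; exact h0) (by push_cast; exact hv0) (by push_cast; exact hv1)
  · exact good_of (U0 := 7700) (U1 := 8400) (V0 := 8750) (V1 := 10000) (hQ _ _ ok_0_7700_8400_8750_10000) (by push_cast; exact h0) (by push_cast; exact hu1) (by push_cast; exact hv0) (by push_cast; exact hv1)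

theorem cover0 (hC : BOXCStmt) (hQ : BOXQStmt) (u v : ℝ) (h1 : 6 / 1000 ≤ u) (h2 : u ≤ 84 / 100) (h3 : 0 ≤ v) (h4 : v ≤ 1) :
    Good false u v := by
  rcases le_total (10000 * u) 3600 with h | h
  · rcases le_total (10000 * v) 5000 with g | g
    · exact str0_60_0_5000 hC hQ u v (by linarith) h (by linarith) g
    · exact str0_60_5000_10000 hC hQ u v (by linarith) h g (by linarith)
  · rcases le_total (10000 * v) 5000 with g | g
    · rcases le_total (10000 * v) 2500 with k | k
      · exact str0_3600_0_2500 hC hQ u v h (by linarith) (by linarith) k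
      · exact str0_3600_2500_5000 hC hQ u v h (by linarith) k g
    · rcases le_total (10000 * v) 7500 with k | k
      · exact str0_3600_5000_7500 hC hQ u v h (by linarith) g k
      · rcases le_total (10000 * u) 7000 with l | l
        · exact str0_3600_7500_10000 hC hQ u v h l k (by linarith)
        · rcases le_total (10000 * v) 8750 with m | m
          · exact str0_7000_7500_8750 hC hQ u v l (by linarith) k m
          · exact str0_7000_8750_10000 hC hQ u v l (by linarith) m (by linarith)

end Pool.TRI.K
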