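import Pool.Agent.H89.TRI.Stmts
import Pool.Agent.H89.TRI.D.D19
import Pool.Agent.H89.TRI.D.D20
import Pool.Agent.H89.TRI.D.D21
import Pool.Agent.H89.TRI.D.D22
import Pool.Agent.H89.TRI.D.D23
import Pool.Agent.H89.TRI.D.D24
import Pool.Agent.H89.TRI.D.D25
import Pool.Agent.H89.TRI.D.D26
import Pool.Agent.H89.TRI.D.D27
import Pool.Agent.H89.TRI.D.D28
import Pool.Agent.H89.TRI.D.D29
import Pool.Agent.H89.TRI.D.D30
import Pool.Agent.H89.TRI.D.D31
import Pool.Agent.H89.TRI.D.D32
import Pool.Agent.H89.TRI.D.D33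
import Pool.Agent.H89.TRI.D.D34
import Pool.Agent.H89.TRI.D.D35
import Pool.Agent.H89.TRI.D.D36
import Pool.Agent.H89.TRI.D.D37
import Pool.Agent.H89.TRI.D.D38
import Pool.Agent.H89.TRI.D.D39
import Pool.Agent.H89.TRI.D.D40
import Pool.Agent.H89.TRI.D.D41
import Pool.Agent.H89.TRI.D.D42
import Pool.Agent.H89.TRI.D.D43
import Pool.Agent.H89.TRI.D.D44
import Pool.Agent.H89.TRI.D.D45
import Pool.Agent.H89.TRI.D.D46
import Pool.Agent.H89.TRI.D.D47
import Pool.Agent.H89.TRI.D.D48

set_option linter.unusedVariables false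

namespace Pool.TRI.K

private theorem good_of {typ : Bool} {U0 U1 V0 V1 : ℤ} (h : BoxGood typ 10000 U0 U1 V0 V1) {u v : ℝ}
    (h1 : (U0 : ℝ) ≤ 10000 * u) (h2 : 10000 * u ≤ (U1 : ℝ)) (h3 : (V0 : ℝ) ≤ 10000 * v) (h4 : 10000 * v ≤ (V1 : ℝ)) :
    Good typ u v := fun T B w hw s hs hc => h T B w hw s u v hs (by push_cast; exact h1) (by push_cast; exact h2)
      (by push_cast; exact h3) (by push_cast; exact h4) hc

theorem str1_9500_0_9 (hC : BOXCStmt) (hQ : BOXQStmt) (u v : ℝ) (hu0 : 9500 ≤ 10000 * u) (hu1 : 10000 * u ≤ 10000)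
    (hv0 : 0 ≤ 10000 * v) (hv1 : 10000 * v ≤ 9) : Good true u v := by
  · exact good_of (U0 := 9500) (U1 := 10000) (V0 := 0) (V1 := 9) (hC _ _ _ _ _ ok_1_9500_10000_0_9) (by push_cast; exact hu0) (by push_cast; exact hu1) (by push_cast; exact hv0) (by push_cast; exact hv1)

theorem str1_9500_9_12 (hC : BOXCStmt) (hQ : BOXQStmt) (u v : ℝ) (hu0 : 9500 ≤ 10000 * u) (hu1 : 10000 * u ≤ 10000)
    (hv0 : 9 ≤ 10000 * v) (hv1 : 10000 * v ≤ 12) : Good true u v := by
  · exact good_of (U0 := 9500) (U1 := 10000) (V0 := 9) (V1 := 12) (hC _ _ _ _ _ ok_1_9500_10000_9_12) (by push_cast; exact hu0) (by push_cast; exact hu1) (by push_cast; exact hv0) (by push_cast; exact hv1)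

theorem str1_5000_0_12 (hC : BOXCStmt) (hQ : BOXQStmt) (u v : ℝ) (hu0 : 5000 ≤ 10000 * u) (hu1 : 10000 * u ≤ 9500)
    (hv0 : 0 ≤ 10000 * v) (hv1 : 10000 * v ≤ 12) : Good true u v := by
  rcases le_total (10000 * u) 5700 with h0 | h0
  · exact good_of (U0 := 5000) (U1 := 5700) (V0 := 0) (V1 := 12) (hC _ _ _ _ _ ok_1_5000_5700_0_12) (by push_cast; exact hu0) (by push_cast; exact h0) (by push_cast; exact hv0) (by push_cast; exact hv1)
  rcases le_total (10000 * u) 6400 with h1 | h1
  · exact good_of (U0 := 5700) (U1 := 6400) (V0 := 0) (V1 := 12) (hC _ _ _ _ _ ok_1_5700_6400_0_12) (by push_cast; exact h0) (by push_cast; exact h1) (by push_cast; exact hv0) (by push_cast; exact hv1)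
  rcases le_total (10000 * u) 7100 with h2 | h2
  · exact good_of (U0 := 6400) (U1 := 7100) (V0 := 0) (V1 := 12) (hC _ _ _ _ _ ok_1_6400_7100_0_12) (by push_cast; exact h1) (by push_cast; exact h2) (by push_cast; exact hv0) (by push_cast; exact hv1)
  rcases le_total (10000 * u) 7800 with h3 | h3
  · exact good_of (U0 := 7100) (U1 := 7800) (V0 := 0) (V1 := 12) (hC _ _ _ _ _ ok_1_7100_7800_0_12) (by push_cast; exact h2) (by push_cast; exact h3) (by push_cast; exact hv0) (by push_cast; exact hv1)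
  rcases le_total (10000 * u) 8500 with h4 | h4
  · exact good_of (U0 := 7800) (U1 := 8500) (V0 := 0) (V1 := 12) (hC _ _ _ _ _ ok_1_7800_8500_0_12) (by push_cast; exact h3) (by push_cast; exact h4) (by push_cast; exact hv0) (by push_cast; exact hv1)
  rcases le_total (10000 * u) 9100 with h5 | h5
  · exact good_of (U0 := 8500) (U1 := 9100) (V0 := 0) (V1 := 12) (hC _ _ _ _ _ ok_1_8500_9100_0_12) (by push_cast; exact h4) (by push_cast; exact h5) (by push_cast; exact hv0) (by push_cast; exact hv1)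
  · exact good_of (U0 := 9100) (U1 := 9500) (V0 := 0) (V1 := 12) (hC _ _ _ _ _ ok_1_9100_9500_0_12) (by push_cast; exact h5) (by push_cast; exact hu1) (by push_cast; exact hv0) (by push_cast; exact hv1)

theorem str1_5000_12_24 (hC : BOXCStmt) (hQ : BOXQStmt) (u v : ℝ) (hu0 : 5000 ≤ 10000 * u) (hu1 : 10000 * u ≤ 9994)
    (hv0 : 12 ≤ 10000 * v) (hv1 : 10000 * v ≤ 24) : Good true u v := by
  rcases le_total (10000 * u) 5900 with h0 | h0
  · exact good_of (U0 := 5000) (U1 := 5900) (V0 := 12) (V1 := 24) (hC _ _ _ _ _ ok_1_5000_5900_12_24) (by push_cast; exact hu0) (by push_cast; exact h0) (by push_cast; exact hv0) (by push_cast; exact hv1)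
  rcases le_total (10000 * u) 6800 with h1 | h1
  · exact good_of (U0 := 5900) (U1 := 6800) (V0 := 12) (V1 := 24) (hC _ _ _ _ _ ok_1_5900_6800_12_24) (by push_cast; exact h0) (by push_cast; exact h1) (by push_cast; exact hv0) (by push_cast; exact hv1)
  rcases le_total (10000 * u) 7700 with h2 | h2
  · exact good_of (U0 := 6800) (U1 := 7700) (V0 := 12) (V1 := 24) (hC _ _ _ _ _ ok_1_6800_7700_12_24) (by push_cast; exact h1) (by push_cast; exact h2) (by push_cast; exact hv0) (by push_cast; exact hv1)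
  rcases le_total (10000 * u) 8400 with h3 | h3
  · exact good_of (U0 := 7700) (U1 := 8400) (V0 := 12) (V1 := 24) (hC _ _ _ _ _ ok_1_7700_8400_12_24) (by push_cast; exact h2) (by push_cast; exact h3) (by push_cast; exact hv0) (by push_cast; exact hv1)
  rcases le_total (10000 * u) 9000 with h4 | h4
  · exact good_of (U0 := 8400) (U1 := 9000) (V0 := 12) (V1 := 24) (hC _ _ _ _ _ ok_1_8400_9000_12_24) (by push_cast; exact h3) (by push_cast; exact h4) (by push_cast; exact hv0) (by push_cast; exact hv1)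
  rcases le_total (10000 * u) 9500 with h5 | h5
  · exact good_of (U0 := 9000) (U1 := 9500) (V0 := 12) (V1 := 24) (hC _ _ _ _ _ ok_1_9000_9500_12_24) (by push_cast; exact h4) (by push_cast; exact h5) (by push_cast; exact hv0) (by push_cast; exact hv1)
  · exact good_of (U0 := 9500) (U1 := 9994) (V0 := 12) (V1 := 24) (hC _ _ _ _ _ ok_1_9500_9994_12_24) (by push_cast; exact h5) (by push_cast; exact hu1) (by push_cast; exact hv0) (by push_cast; exact hv1)

theorem str1_5000_24_48 (hC : BOXCStmt) (hQ : BOXQStmt) (u v : ℝ) (hu0 : 5000 ≤ 10000 * u) (hu1 : 10000 * u ≤ 9988)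
    (hv0 : 24 ≤ 10000 * v) (hv1 : 10000 * v ≤ 48) : Good true u v := by
  rcases le_total (10000 * u) 5900 with h0 | h0
  · exact good_of (U0 := 5000) (U1 := 5900) (V0 := 24) (V1 := 48) (hC _ _ _ _ _ ok_1_5000_5900_24_48) (by push_cast; exact hu0) (by push_cast; exact h0) (by push_cast; exact hv0) (by push_cast; exact hv1)
  rcases le_total (10000 * u) 6800 with h1 | h1
  · exact good_of (U0 := 5900) (U1 := 6800) (V0 := 24) (V1 := 48) (hC _ _ _ _ _ ok_1_5900_6800_24_48) (by push_cast; exact h0) (by push_cast; exact h1) (by push_cast; exact hv0) (by push_cast; exact hv1)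
  rcases le_total (10000 * u) 7700 with h2 | h2
  · exact good_of (U0 := 6800) (U1 := 7700) (V0 := 24) (V1 := 48) (hC _ _ _ _ _ ok_1_6800_7700_24_48) (by push_cast; exact h1) (by push_cast; exact h2) (by push_cast; exact hv0) (by push_cast; exact hv1)
  rcases le_total (10000 * u) 8400 with h3 | h3
  · exact good_of (U0 := 7700) (U1 := 8400) (V0 := 24) (V1 := 48) (hC _ _ _ _ _ ok_1_7700_8400_24_48) (by push_cast; exact h2) (by push_cast; exact h3) (by push_cast; exact hv0) (by push_cast; exact hv1)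
  rcases le_total (10000 * u) 9000 with h4 | h4
  · exact good_of (U0 := 8400) (U1 := 9000) (V0 := 24) (V1 := 48) (hC _ _ _ _ _ ok_1_8400_9000_24_48) (by push_cast; exact h3) (by push_cast; exact h4) (by push_cast; exact hv0) (by push_cast; exact hv1)
  rcases le_total (10000 * u) 9500 with h5 | h5
  · exact good_of (U0 := 9000) (U1 := 9500) (V0 := 24) (V1 := 48) (hC _ _ _ _ _ ok_1_9000_9500_24_48) (by push_cast; exact h4) (by push_cast; exact h5) (by push_cast; exact hv0) (by push_cast; exact hv1)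
  · exact good_of (U0 := 9500) (U1 := 9988) (V0 := 24) (V1 := 48) (hC _ _ _ _ _ ok_1_9500_9988_24_48) (by push_cast; exact h5) (by push_cast; exact hu1) (by push_cast; exact hv0) (by push_cast; exact hv1)

theorem str1_5000_48_96 (hC : BOXCStmt) (hQ : BOXQStmt) (u v : ℝ) (hu0 : 5000 ≤ 10000 * u) (hu1 : 10000 * u ≤ 9976)
    (hv0 : 48 ≤ 10000 * v) (hv1 : 10000 * v ≤ 96) : Good true u v := by
  rcases le_total (10000 * u) 5700 with h0 | h0
  · exact good_of (U0 := 5000) (U1 := 5700) (V0 := 48) (V1 := 96) (hC _ _ _ _ _ ok_1_5000_5700_48_96) (by push_cast; exact hu0) (by push_cast; exact h0) (by push_cast; exact hv0) (by push_cast; exact hv1)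
  rcases le_total (10000 * u) 6400 with h1 | h1
  · exact good_of (U0 := 5700) (U1 := 6400) (V0 := 48) (V1 := 96) (hC _ _ _ _ _ ok_1_5700_6400_48_96) (by push_cast; exact h0) (by push_cast; exact h1) (by push_cast; exact hv0) (by push_cast; exact hv1)
  rcases le_total (10000 * u) 7100 with h2 | h2
  · exact good_of (U0 := 6400) (U1 := 7100) (V0 := 48) (V1 := 96) (hC _ _ _ _ _ ok_1_6400_7100_48_96) (by push_cast; exact h1) (by push_cast; exact h2) (by push_cast; exact hv0) (by push_cast; exact hv1)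
  rcases le_total (10000 * u) 7800 with h3 | h3
  · exact good_of (U0 := 7100) (U1 := 7800) (V0 := 48) (V1 := 96) (hC _ _ _ _ _ ok_1_7100_7800_48_96) (by push_cast; exact h2) (by push_cast; exact h3) (by push_cast; exact hv0) (by push_cast; exact hv1)
  rcases le_total (10000 * u) 8500 with h4 | h4
  · exact good_of (U0 := 7800) (U1 := 8500) (V0 := 48) (V1 := 96) (hC _ _ _ _ _ ok_1_7800_8500_48_96) (by push_cast; exact h3) (by push_cast; exact h4) (by push_cast; exact hv0) (by push_cast; exact hv1)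
  rcases le_total (10000 * u) 9400 with h5 | h5
  · exact good_of (U0 := 8500) (U1 := 9400) (V0 := 48) (V1 := 96) (hC _ _ _ _ _ ok_1_8500_9400_48_96) (by push_cast; exact h4) (by push_cast; exact h5) (by push_cast; exact hv0) (by push_cast; exact hv1)
  · exact good_of (U0 := 9400) (U1 := 9976) (V0 := 48) (V1 := 96) (hC _ _ _ _ _ ok_1_9400_9976_48_96) (by push_cast; exact h5) (by push_cast; exact hu1) (by push_cast; exact hv0) (by push_cast; exact hv1)

theorem str1_5000_96_192 (hC : BOXCStmt) (hQ : BOXQStmt) (u v : ℝ) (hu0 : 5000 ≤ 10000 * u) (hu1 : 10000 * u ≤ 9952)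
    (hv0 : 96 ≤ 10000 * v) (hv1 : 10000 * v ≤ 192) : Good true u v := by
  rcases le_total (10000 * u) 5900 with h0 | h0
  · exact good_of (U0 := 5000) (U1 := 5900) (V0 := 96) (V1 := 192) (hC _ _ _ _ _ ok_1_5000_5900_96_192) (by push_cast; exact hu0) (by push_cast; exact h0) (by push_cast; exact hv0) (by push_cast; exact hv1)
  rcases le_total (10000 * u) 6800 with h1 | h1
  · exact good_of (U0 := 5900) (U1 := 6800) (V0 := 96) (V1 := 192) (hC _ _ _ _ _ ok_1_5900_6800_96_192) (by push_cast; exact h0) (by push_cast; exact h1) (by push_cast; exact hv0) (by push_cast; exact hv1)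
  rcases le_total (10000 * u) 7700 with h2 | h2
  · exact good_of (U0 := 6800) (U1 := 7700) (V0 := 96) (V1 := 192) (hC _ _ _ _ _ ok_1_6800_7700_96_192) (by push_cast; exact h1) (by push_cast; exact h2) (by push_cast; exact hv0) (by push_cast; exact hv1)
  rcases le_total (10000 * u) 8900 with h3 | h3
  · exact good_of (U0 := 7700) (U1 := 8900) (V0 := 96) (V1 := 192) (hC _ _ _ _ _ ok_1_7700_8900_96_192) (by push_cast; exact h2) (by push_cast; exact h3) (by push_cast; exact hv0) (by push_cast; exact hv1)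
  · exact good_of (U0 := 8900) (U1 := 9952) (V0 := 96) (V1 := 192) (hC _ _ _ _ _ ok_1_8900_9952_96_192) (by push_cast; exact h3) (by push_cast; exact hu1) (by push_cast; exact hv0) (by push_cast; exact hv1)

theorem str1_5000_192_360 (hC : BOXCStmt) (hQ : BOXQStmt) (u v : ℝ) (hu0 : 5000 ≤ 10000 * u) (hu1 : 10000 * u ≤ 9904)
    (hv0 : 192 ≤ 10000 * v) (hv1 : 10000 * v ≤ 360) : Good true u v := by
  rcases le_total (10000 * u) 5900 with h0 | h0
  · exact good_of (U0 := 5000) (U1 := 5900) (V0 := 192) (V1 := 360) (hC _ _ _ _ _ ok_1_5000_5900_192_360) (by push_cast; exact hu0) (by push_cast; exact h0) (by push_cast; exact hv0) (by push_cast; exact hv1)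
  rcases le_total (10000 * u) 6800 with h1 | h1
  · exact good_of (U0 := 5900) (U1 := 6800) (V0 := 192) (V1 := 360) (hC _ _ _ _ _ ok_1_5900_6800_192_360) (by push_cast; exact h0) (by push_cast; exact h1) (by push_cast; exact hv0) (by push_cast; exact hv1)
  rcases le_total (10000 * u) 8000 with h2 | h2
  · exact good_of (U0 := 6800) (U1 := 8000) (V0 := 192) (V1 := 360) (hC _ _ _ _ _ ok_1_6800_8000_192_360) (by push_cast; exact h1) (by push_cast; exact h2) (by push_cast; exact hv0) (by push_cast; exact hv1)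
  rcases le_total (10000 * u) 9200 with h3 | h3
  · exact good_of (U0 := 8000) (U1 := 9200) (V0 := 192) (V1 := 360) (hC _ _ _ _ _ ok_1_8000_9200_192_360) (by push_cast; exact h2) (by push_cast; exact h3) (by push_cast; exact hv0) (by push_cast; exact hv1)
  · exact good_of (U0 := 9200) (U1 := 9904) (V0 := 192) (V1 := 360) (hC _ _ _ _ _ ok_1_9200_9904_192_360) (by push_cast; exact h3) (by push_cast; exact hu1) (by push_cast; exact hv0) (by push_cast; exact hv1)

theorem str1_5000_360_600 (hC : BOXCStmt) (hQ : BOXQStmt) (u v : ℝ) (hu0 : 5000 ≤ 10000 * u) (hu1 : 10000 * u ≤ 9819)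
    (hv0 : 360 ≤ 10000 * v) (hv1 : 10000 * v ≤ 600) : Good true u v := by
  rcases le_total (10000 * u) 5900 with h0 | h0
  · exact good_of (U0 := 5000) (U1 := 5900) (V0 := 360) (V1 := 600) (hC _ _ _ _ _ ok_1_5000_5900_360_600) (by push_cast; exact hu0) (by push_cast; exact h0) (by push_cast; exact hv0) (by push_cast; exact hv1)
  rcases le_total (10000 * u) 7100 with h1 | h1
  · exact good_of (U0 := 5900) (U1 := 7100) (V0 := 360) (V1 := 600) (hC _ _ _ _ _ ok_1_5900_7100_360_600) (by push_cast; exact h0) (by push_cast; exact h1) (by push_cast; exact hv0) (by push_cast; exact hv1)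
  rcases le_total (10000 * u) 8700 with h2 | h2
  · exact good_of (U0 := 7100) (U1 := 8700) (V0 := 360) (V1 := 600) (hC _ _ _ _ _ ok_1_7100_8700_360_600) (by push_cast; exact h1) (by push_cast; exact h2) (by push_cast; exact hv0) (by push_cast; exact hv1)
  · exact good_of (U0 := 8700) (U1 := 9819) (V0 := 360) (V1 := 600) (hC _ _ _ _ _ ok_1_8700_9819_360_600) (by push_cast; exact h2) (by push_cast; exact hu1) (by push_cast; exact hv0) (by push_cast; exact hv1)

theorem str1_5000_600_950 (hC : BOXCStmt) (hQ : BOXQStmt) (u v : ℝ) (hu0 : 5000 ≤ 10000 * u) (hu1 : 10000 * u ≤ 9696)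
    (hv0 : 600 ≤ 10000 * v) (hv1 : 10000 * v ≤ 950) : Good true u v := by
  rcases le_total (10000 * u) 6200 with h0 | h0
  · exact good_of (U0 := 5000) (U1 := 6200) (V0 := 600) (V1 := 950) (hC _ _ _ _ _ ok_1_5000_6200_600_950) (by push_cast; exact hu0) (by push_cast; exact h0) (by push_cast; exact hv0) (by push_cast; exact hv1)
  rcases le_total (10000 * u) 7800 with h1 | h1
  · exact good_of (U0 := 6200) (U1 := 7800) (V0 := 600) (V1 := 950) (hC _ _ _ _ _ ok_1_6200_7800_600_950) (by push_cast; exact h0) (by push_cast; exact h1) (by push_cast; exact hv0) (by push_cast; exact hv1)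
  · exact good_of (U0 := 7800) (U1 := 9696) (V0 := 600) (V1 := 950) (hC _ _ _ _ _ ok_1_7800_9696_600_950) (by push_cast; exact h1) (by push_cast; exact hu1) (by push_cast; exact hv0) (by push_cast; exact hv1)

theorem str1_5000_950_1400 (hC : BOXCStmt) (hQ : BOXQStmt) (u v : ℝ) (hu0 : 5000 ≤ 10000 * u) (hu1 : 10000 * u ≤ 9514)
    (hv0 : 950 ≤ 10000 * v) (hv1 : 10000 * v ≤ 1400) : Good true u v := by
  rcases le_total (10000 * u) 6200 with h0 | h0
  · exact good_of (U0 := 5000) (U1 := 6200) (V0 := 950) (V1 := 1400) (hC _ _ _ _ _ ok_1_5000_6200_950_1400) (by push_cast; exact hu0) (by push_cast; exact h0) (by push_cast; exact hv0) (by push_cast; exact hv1)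
  rcases le_total (10000 * u) 7800 with h1 | h1
  · exact good_of (U0 := 6200) (U1 := 7800) (V0 := 950) (V1 := 1400) (hC _ _ _ _ _ ok_1_6200_7800_950_1400) (by push_cast; exact h0) (by push_cast; exact h1) (by push_cast; exact hv0) (by push_cast; exact hv1)
  · exact good_of (U0 := 7800) (U1 := 9514) (V0 := 950) (V1 := 1400) (hC _ _ _ _ _ ok_1_7800_9514_950_1400) (by push_cast; exact h1) (by push_cast; exact hu1) (by push_cast; exact hv0) (by push_cast; exact hv1)

theorem str1_5000_1400_2000 (hC : BOXCStmt) (hQ : BOXQStmt) (u v : ℝ) (hu0 : 5000 ≤ 10000 * u) (hu1 : 10000 * u ≤ 9274)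
    (hv0 : 1400 ≤ 10000 * v) (hv1 : 10000 * v ≤ 2000) : Good true u v := by
  rcases le_total (10000 * u) 6200 with h0 | h0
  · exact good_of (U0 := 5000) (U1 := 6200) (V0 := 1400) (V1 := 2000) (hC _ _ _ _ _ ok_1_5000_6200_1400_2000) (by push_cast; exact hu0) (by push_cast; exact h0) (by push_cast; exact hv0) (by push_cast; exact hv1)
  rcases le_total (10000 * u) 7800 with h1 | h1
  · exact good_of (U0 := 6200) (U1 := 7800) (V0 := 1400) (V1 := 2000) (hC _ _ _ _ _ ok_1_6200_7800_1400_2000) (by push_cast; exact h0) (by push_cast; exact h1) (by push_cast; exact hv0) (by push_cast; exact hv1)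
  · exact good_of (U0 := 7800) (U1 := 9274) (V0 := 1400) (V1 := 2000) (hC _ _ _ _ _ ok_1_7800_9274_1400_2000) (by push_cast; exact h1) (by push_cast; exact hu1) (by push_cast; exact hv0) (by push_cast; exact hv1)

theorem str1_5000_2000_2700 (hC : BOXCStmt) (hQ : BOXQStmt) (u v : ℝ) (hu0 : 5000 ≤ 10000 * u) (hu1 : 10000 * u ≤ 8945)
    (hv0 : 2000 ≤ 10000 * v) (hv1 : 10000 * v ≤ 2700) : Good true u v := by
  rcases le_total (10000 * u) 6200 with h0 | h0
  · exact good_of (U0 := 5000) (U1 := 6200) (V0 := 2000) (V1 := 2700) (hC _ _ _ _ _ ok_1_5000_6200_2000_2700) (by push_cast; exact hu0) (by push_cast; exact h0) (by push_cast; exact hv0) (by push_cast; exact hv1)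
  rcases le_total (10000 * u) 7800 with h1 | h1
  · exact good_of (U0 := 6200) (U1 := 7800) (V0 := 2000) (V1 := 2700) (hC _ _ _ _ _ ok_1_6200_7800_2000_2700) (by push_cast; exact h0) (by push_cast; exact h1) (by push_cast; exact hv0) (by push_cast; exact hv1)
  · exact good_of (U0 := 7800) (U1 := 8945) (V0 := 2000) (V1 := 2700) (hC _ _ _ _ _ ok_1_7800_8945_2000_2700) (by push_cast; exact h1) (by push_cast; exact hu1) (by push_cast; exact hv0) (by push_cast; exact hv1)

theorem str1_5000_2700_3370 (hC : BOXCStmt) (hQ : BOXQStmt) (u v : ℝ) (hu0 : 5000 ≤ 10000 * u) (hu1 : 10000 * u ≤ 8545)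
    (hv0 : 2700 ≤ 10000 * v) (hv1 : 10000 * v ≤ 3370) : Good true u v := by
  rcases le_total (10000 * u) 6200 with h0 | h0
  · exact good_of (U0 := 5000) (U1 := 6200) (V0 := 2700) (V1 := 3370) (hC _ _ _ _ _ ok_1_5000_6200_2700_3370) (by push_cast; exact hu0) (by push_cast; exact h0) (by push_cast; exact hv0) (by push_cast; exact hv1)
  rcases le_total (10000 * u) 7800 with h1 | h1
  · exact good_of (U0 := 6200) (U1 := 7800) (V0 := 2700) (V1 := 3370) (hC _ _ _ _ _ ok_1_6200_7800_2700_3370) (by push_cast; exact h0) (by push_cast; exact h1) (by push_cast; exact hv0) (by push_cast; exact hv1)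
  · exact good_of (U0 := 7800) (U1 := 8545) (V0 := 2700) (V1 := 3370) (hC _ _ _ _ _ ok_1_7800_8545_2700_3370) (by push_cast; exact h1) (by push_cast; exact hu1) (by push_cast; exact hv0) (by push_cast; exact hv1)

theorem cover1 (hC : BOXCStmt) (hQ : BOXQStmt) (u v : ℝ) (h1 : 1 / 2 ≤ u) (h2 : u < 1) (h3 : 0 < v) (h4 : v ≤ 1 - u ^ 2)
    (h5 : v ≤ u * (116 / 100 - u)) : Good true u v := by
  have h5' : 10000 * v ≤ 3370 := by nlinarith [sq_nonneg (u - 58 / 100)]
  rcases le_total (10000 * v) 12 with g0 | g0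
  · rcases le_total (10000 * u) 9500 with l | l
    · exact str1_5000_0_12 hC hQ u v (by linarith) l (by linarith) g0
    · rcases le_total (10000 * v) 9 with m | m
      · exact str1_9500_0_9 hC hQ u v l (by linarith) (by linarith) m
      · exact str1_9500_9_12 hC hQ u v l (by linarith) m g0
  rcases le_total (10000 * v) 24 with g1 | g1
  · have hb : 10000 * u ≤ 9994 := by nlinarith
    exact str1_5000_12_24 hC hQ u v (by linarith) hb g0 g1
  rcases le_total (10000 * v) 48 with g2 | g2
  · have hb : 10000 * u ≤ 9988 := by nlinarith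
    exact str1_5000_24_48 hC hQ u v (by linarith) hb g1 g2
  rcases le_total (10000 * v) 96 with g3 | g3
  · have hb : 10000 * u ≤ 9976 := by nlinarith
    exact str1_5000_48_96 hC hQ u v (by linarith) hb g2 g3
  rcases le_total (10000 * v) 192 with g4 | g4
  · have hb : 10000 * u ≤ 9952 := by nlinarith
    exact str1_5000_96_192 hC hQ u v (by linarith) hb g3 g4
  rcases le_total (10000 * v) 360 with g5 | g5
  · have hb : 10000 * u ≤ 9904 := by nlinarith
    exact str1_5000_192_360 hC hQ u v (by linarith) hb g4 g5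
  rcases le_total (10000 * v) 600 with g6 | g6
  · have hb : 10000 * u ≤ 9819 := by nlinarith
    exact str1_5000_360_600 hC hQ u v (by linarith) hb g5 g6
  rcases le_total (10000 * v) 950 with g7 | g7
  · have hb : 10000 * u ≤ 9696 := by nlinarith
    exact str1_5000_600_950 hC hQ u v (by linarith) hb g6 g7
  rcases le_total (10000 * v) 1400 with g8 | g8
  · have hb : 10000 * u ≤ 9514 := by nlinarith
    exact str1_5000_950_1400 hC hQ u v (by linarith) hb g7 g8
  rcases le_total (10000 * v) 2000 with g9 | g9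
  · have hb : 10000 * u ≤ 9274 := by nlinarith
    exact str1_5000_1400_2000 hC hQ u v (by linarith) hb g8 g9
  rcases le_total (10000 * v) 2700 with g10 | g10
  · have hb : 10000 * u ≤ 8945 := by nlinarith
    exact str1_5000_2000_2700 hC hQ u v (by linarith) hb g9 g10
  · have hb : 10000 * u ≤ 8545 := by nlinarith
    exact str1_5000_2700_3370 hC hQ u v (by linarith) hb g10 h5'

end Pool.TRI.K
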