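import Mathlib

open MeasureTheory Set Filter Topology InnerProductSpace
open scoped Real ContDiff Laplacian

namespace Pool.TRI

/-- the open triangle with vertices `A`, `B`, `C` (the plane is `ℂ`) -/
def tri (A B C : ℂ) : Set ℂ := interior (convexHull ℝ {A, B, C})

/-- the test functions for the first Dirichlet eigenvalue: smooth, not identically zero, with compact support
contained in `T` -/
def IsTest (T : Set ℂ) (v : ℂ → ℝ) : Prop :=
  ContDiff ℝ ∞ v ∧ HasCompactSupport v ∧ tsupport v ⊆ T ∧ v ≠ 0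

/-- first Dirichlet eigenvalue of `-Δ` on `T`: the infimum of the Rayleigh quotients of the test functions -/
noncomputable def lambda1 (T : Set ℂ) : ℝ :=
  sInf {r : ℝ | ∃ v : ℂ → ℝ, IsTest T v ∧ r = (∫ z, ‖fderiv ℝ v z‖ ^ 2) / ∫ z, v z ^ 2}

/-- `u` is the expected exit time of Brownian motion from `T`: it is continuous on the closure of `T`, of class
`C^2` in `T`, `(1/2) Δ u = -1` in `T`, and `u = 0` on the boundary -/
structure IsExit (T : Set ℂ) (u : ℂ → ℝ) : Prop where
  cont : ContinuousOn u (closure T)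
  smooth : ContDiffOn ℝ 2 u T
  pde : ∀ z ∈ T, (1 / 2 : ℝ) * (Δ u) z = -1
  bdry : ∀ z ∈ frontier T, u z = 0

/-- barycentric data of an open triangle `T`: the barycentric coordinates are
`x k z = re (z * conj (g k)) + b k`; `g k` is the gradient of the `k`-th coordinate -/
structure Bary (T : Set ℂ) where
  g : Fin 3 → ℂ
  b : Fin 3 → ℝ
  sum_g : g 0 + g 1 + g 2 = 0
  sum_b : b 0 + b 1 + b 2 = 1
  indep : (g 0 * (starRingEnd ℂ) (g 1)).im ≠ 0
  mem_iff : ∀ z, z ∈ T ↔ ∀ k, 0 < (z * (starRingEnd ℂ) (g k)).re + b k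

namespace Bary
variable {T : Set ℂ} (B : Bary T)

/-- the barycentric coordinates -/
noncomputable def x (k : Fin 3) (z : ℂ) : ℝ := (z * (starRingEnd ℂ) (B.g k)).re + B.b k

/-- the coefficients of the Laplacian in barycentric coordinates, `c k = - g i · g j` for `{i,j,k} = {0,1,2}`:
`Δ (P ∘ x) = ∑ c k (∂_i - ∂_j)^2 P`; in terms of the angles `c k = cot (A k) / (2 |T|)` -/
noncomputable def c (k : Fin 3) : ℝ := -(B.g (k + 1) * (starRingEnd ℂ) (B.g (k + 2))).re

end Bary

end Pool.TRI
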