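import Pool.Agent.H89.TRI.Lib

open MvPolynomial

namespace Pool.TRI.K

section
variable {A M M1 M2 α β γ κ : Type} [CommSemiring A] [AddCommMonoid M] [Module A M]
  [AddCommMonoid M1] [Module A M1] [AddCommMonoid M2] [Module A M2]

private theorem zl_lin (f : γ → M) (P : γ → Prop) (add : γ → γ → γ)
    (hadd : ∀ x y, P x → P y → P (add x y) ∧ f (add x y) = f x + f y) (l m : List γ)
    (hl : ∀ x ∈ l, P x) (hm : ∀ x ∈ m, P x) (h : l.length ≤ m.length) (y z : A) :
    (∀ x ∈ zl add l m, P x) ∧
    lin f (zl add l m) y z = z ^ (m.length - l.length) • lin f l y z + lin f m y z := by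
  induction l generalizing m with
  | nil => simp only [zl_nil, lin_nil, smul_zero, zero_add]; exact ⟨hm, trivial⟩
  | cons a l ih => cases m with
    | nil => simp at h
    | cons b m =>
      simp only [List.length_cons, add_le_add_iff_right] at h
      have h1 := hadd a b (hl a (by simp)) (hm b (by simp))
      obtain ⟨h2, h3⟩ := ih m (fun x hx => hl x (by simp [hx])) (fun x hx => hm x (by simp [hx])) h
      refine ⟨?_, ?_⟩
      · intro x hx
        simp only [zl_cons, List.mem_cons] at hx
        rcases hx with rfl | hx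
        · exact h1.1
        · exact h2 x hx
      · simp only [zl_cons, lin_cons, h3, h1.2, zl_length, List.length_cons, Nat.add_sub_add_right, smul_add, smul_smul]
        have e1 : max l.length m.length = m.length := max_eq_right h
        rw [e1]
        have e2 : z ^ m.length = z ^ (m.length - l.length) * z ^ l.length := by
          rw [← pow_add, Nat.sub_add_cancel h]
        rw [e2, mul_comm y (z ^ (m.length - l.length))]
        abel

private theorem cv_bil (f : γ → M) (P : γ → Prop) (add : γ → γ → γ)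
    (hadd : ∀ x y, P x → P y → P (add x y) ∧ f (add x y) = f x + f y)
    (sm : κ → β → γ) (Φ : M1 →ₗ[A] M2 →ₗ[A] M) (g : κ → M1) (h : β → M2) (Q : β → Prop) (R : κ → Prop)
    (hsm : ∀ a b, R a → Q b → P (sm a b) ∧ f (sm a b) = Φ (g a) (h b))
    (c : List κ) (E : List β) (hc : ∀ a ∈ c, R a) (hE : ∀ b ∈ E, Q b) (hE0 : E ≠ []) (y z : A) :
    (∀ x ∈ cv add sm c E, P x) ∧ lin f (cv add sm c E) y z = Φ (lin g c y z) (lin h E y z) := by
  obtain ⟨e, E, rfl⟩ := List.exists_cons_of_ne_nil hE0
  induction c with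
  | nil => simp
  | cons a c ih =>
    obtain ⟨ih1, ih2⟩ := ih (fun x hx => hc x (by simp [hx]))
    have hmap : ∀ x ∈ E.map (sm a), P x := by
      intro x hx
      obtain ⟨b, hb, rfl⟩ := List.mem_map.1 hx
      exact (hsm a b (hc a (by simp)) (hE b (by simp [hb]))).1
    have he := hsm a e (hc a (by simp)) (hE e (by simp))
    have hlin : lin f (E.map (sm a)) y z = Φ (g a) (lin h E y z) := by
      rw [lin_map, lin_hom (Φ (g a))]
      exact lin_congr _ (fun b hb => (hsm a b (hc a (by simp)) (hE b (by simp [hb]))).2) _ _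
    by_cases h0 : c = []
    · subst h0
      simp only [cv_cons, cv_nil, zl_nil']
      refine ⟨?_, ?_⟩
      · intro x hx
        simp only [List.mem_cons] at hx
        rcases hx with rfl | hx
        · exact he.1
        · exact hmap x hx
      · simp only [lin_cons, hlin, he.2, List.length_map, List.length_nil, pow_zero, one_smul, lin_nil, smul_zero,
          add_zero, map_add, map_smul]
    · have hlen : (cv add sm c (e :: E)).length = c.length + E.length := by
        rw [cv_length _ _ _ _ h0 (by simp), List.length_cons]; omega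
      obtain ⟨h2, h3⟩ := zl_lin f P add hadd (E.map (sm a)) (cv add sm c (e :: E)) hmap ih1
        (by rw [hlen, List.length_map]; omega) y z
      refine ⟨?_, ?_⟩
      · intro x hx
        simp only [cv_cons, List.mem_cons] at hx
        rcases hx with rfl | hx
        · exact he.1
        · exact h2 x hx
      · have e1 : max (E.map (sm a)).length (c.length + E.length) = c.length + E.length := by
          rw [List.length_map]; omega
        have e2 : c.length + E.length - E.length = c.length := by omega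
        rw [cv_cons, lin_cons, h3, zl_length, hlen, e1, hlin, he.2, ih2, List.length_map, e2]
        simp only [lin_cons, map_add, map_smul, LinearMap.add_apply, LinearMap.smul_apply]
        module

private theorem lin_zip' (P : α → Prop) (g : α → α → α) (f : α → M)
    (h : ∀ a b, P a → P b → P (g a b) ∧ f (g a b) = f a + f b)
    (l m : List α) (hl : l.length = m.length) (h1 : ∀ a ∈ l, P a) (h2 : ∀ a ∈ m, P a) (y z : A) :
    (List.zipWith g l m).length = l.length ∧ (∀ a ∈ List.zipWith g l m, P a) ∧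
    lin f (List.zipWith g l m) y z = lin f l y z + lin f m y z := by
  induction l generalizing m with
  | nil => cases m with
    | nil => simp
    | cons b m => simp at hl
  | cons a l ih => cases m with
    | nil => simp at hl
    | cons b m =>
      simp only [List.length_cons, add_left_inj] at hl
      obtain ⟨i1, i2, i3⟩ := ih m hl (fun x hx => h1 x (by simp [hx])) (fun x hx => h2 x (by simp [hx]))
      have h3 := h a b (h1 a (by simp)) (h2 b (by simp))
      refine ⟨by simp [hl], ?_, ?_⟩
      · intro x hx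
        simp only [List.zipWith_cons_cons, List.mem_cons] at hx
        rcases hx with rfl | hx
        · exact h3.1
        · exact i2 x hx
      · simp only [List.zipWith_cons_cons, lin_cons, i3, h3.2, smul_add, i1, hl]
        abel

private theorem cv_map {κ' β' : Type} (add : γ → γ → γ) (sm : κ → β → γ) (u : κ' → κ) (v : β' → β) (c : List κ') (E : List β') :
    cv add sm (c.map u) (E.map v) = cv add (fun a b => sm (u a) (v b)) c E := by
  cases E with
  | nil => simp
  | cons e E =>
    induction c with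
    | nil => rfl
    | cons a c ih =>
      have h2 : cv add sm (c.map u) (v e :: E.map v) = cv add (fun a b => sm (u a) (v b)) c (e :: E) := ih
      rw [List.map_cons, List.map_cons, cv_cons, h2, cv_cons, List.map_map]
      rfl

end

/-! ### table of values of a bilinear form -/

private theorem tab_bil (m : ℕ) (sm : Net → Net → ℤ) (Φ : MP →ₗ[ℝ] MP →ₗ[ℝ] ℝ)
    (hsm : ∀ p p', Sh (m + 1) p → Sh (m + 1) p' → ((sm p p' : ℤ) : ℝ) = Φ (toP p) (toP p'))
    (T : List (List Net)) (hT : ShT (m + 1) 2 2 T) :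
    Rect 3 3 (cv (zw Int.add) (cv Int.add sm) T T) ∧
    ∀ s s' t t' : ℝ, evT (cv (zw Int.add) (cv Int.add sm) T T) s s' t t' = Φ (toPT T s s' t t') (toPT T s s' t t') := by
  have inner : ∀ (t t' : ℝ) (c E : List Net), (c.length = 2 ∧ ∀ P ∈ c, Sh (m + 1) P) → (E.length = 2 ∧ ∀ P ∈ E, Sh (m + 1) P) →
      (cv Int.add sm c E).length = 3 ∧
      lin (A := ℝ) (fun x : ℤ => (x : ℝ)) (cv Int.add sm c E) t t' =
        Φ (lin (A := ℝ) toP c t t') (lin (A := ℝ) toP E t t') := by
    intro t t' c E hc hE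
    have hE0 : E ≠ [] := by intro h; rw [h] at hE; simp at hE
    have hc0 : c ≠ [] := by intro h; rw [h] at hc; simp at hc
    obtain ⟨_, h2⟩ := cv_bil (A := ℝ) (fun x : ℤ => (x : ℝ)) (fun _ => True) Int.add
      (fun x y _ _ => ⟨trivial, Int.cast_add x y⟩) sm Φ toP toP (Sh (m + 1)) (Sh (m + 1))
      (fun a b ha hb => ⟨trivial, hsm a b ha hb⟩) c E hc.2 hE.2 hE0 t t'
    refine ⟨?_, h2⟩
    rw [cv_length _ _ _ _ hc0 hE0, hc.1, hE.1]
  have hT0 : T ≠ [] := by intro h; rw [h] at hT; have := hT.1.1; simp at this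
  have outer : ∀ s s' t t' : ℝ, (∀ x ∈ cv (zw Int.add) (cv Int.add sm) T T, x.length = 3) ∧
      evT (cv (zw Int.add) (cv Int.add sm) T T) s s' t t' = Φ (toPT T s s' t t') (toPT T s s' t t') := by
    intro s s' t t'
    have hadd : ∀ x y : List ℤ, x.length = 3 → y.length = 3 →
        (zw Int.add x y).length = 3 ∧
        lin (A := ℝ) (fun x : ℤ => (x : ℝ)) (zw Int.add x y) t t' =
          lin (A := ℝ) (fun x : ℤ => (x : ℝ)) x t t' + lin (A := ℝ) (fun x : ℤ => (x : ℝ)) y t t' := by
      intro x y hx hy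
      rw [zw_eq]
      obtain ⟨h1, _, h3⟩ := lin_zip' (A := ℝ) (fun _ => True) Int.add (fun x : ℤ => (x : ℝ))
        (fun x y _ _ => ⟨trivial, Int.cast_add x y⟩) x y (by rw [hx, hy]) (fun _ _ => trivial) (fun _ _ => trivial) t t'
      exact ⟨by rw [h1, hx], h3⟩
    exact cv_bil (A := ℝ) (fun r => lin (A := ℝ) (fun x : ℤ => (x : ℝ)) r t t') (fun x : List ℤ => x.length = 3)
      (zw Int.add) hadd (cv Int.add sm) Φ (fun r => lin (A := ℝ) toP r t t') (fun r => lin (A := ℝ) toP r t t')
      (fun x : List Net => x.length = 2 ∧ ∀ P ∈ x, Sh (m + 1) P) (fun x : List Net => x.length = 2 ∧ ∀ P ∈ x, Sh (m + 1) P)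
      (fun c E hc hE => inner t t' c E hc hE) T T (fun r hr => ⟨hT.1.2 r hr, hT.2 r hr⟩)
      (fun r hr => ⟨hT.1.2 r hr, hT.2 r hr⟩) hT0 s s'
  refine ⟨⟨?_, fun r hr => (outer 0 0 0 0).1 r hr⟩, fun s s' t t' => (outer s s' t t').2⟩
  rw [cv_length _ _ _ _ hT0 hT0, hT.1.1]

/-! ### linearity of `facI` -/

private theorem facI_sub (F : MP) (S : Finset (Fin 3 →₀ ℕ)) (h : F.support ⊆ S) :
    facI F = ∑ α ∈ S, coeff α F * (((α 0).factorial * (α 1).factorial * (α 2).factorial : ℕ) : ℝ) := by
  unfold facI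
  apply Finset.sum_subset h
  intro α _ hα
  rw [notMem_support_iff.1 hα, zero_mul]

private theorem facI_add (F G : MP) : facI (F + G) = facI F + facI G := by
  classical
  rw [facI_sub (F + G) (F.support ∪ G.support) support_add, facI_sub F _ Finset.subset_union_left,
    facI_sub G _ Finset.subset_union_right, ← Finset.sum_add_distrib]
  apply Finset.sum_congr rfl
  intro α _
  rw [coeff_add, add_mul]

private theorem facI_smul (c : ℝ) (F : MP) : facI (c • F) = c * facI F := by
  classical
  rw [facI_sub (c • F) F.support support_smul, facI_sub F _ (le_refl _), Finset.mul_sum]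
  apply Finset.sum_congr rfl
  intro α _
  rw [coeff_smul, smul_eq_mul, mul_assoc]

private noncomputable def facL : MP →ₗ[ℝ] ℝ where
  toFun := facI
  map_add' := facI_add
  map_smul' c F := by rw [facI_smul]; rfl

private noncomputable def DkL (k : Fin 3) : MP →ₗ[ℝ] MP where
  toFun := Dk k
  map_add' F G := by unfold Dk; rw [map_add, map_add]; ring
  map_smul' c F := by
    unfold Dk
    rw [Derivation.map_smul, Derivation.map_smul, ← smul_sub]; rfl

private noncomputable def w3 : MP := X 0 * X 1 * X 2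

/-- `(P, Q) ↦ -facI (w3 P * Dk Dk (w3 Q))` -/
private noncomputable def Fe (k : Fin 3) : MP →ₗ[ℝ] MP →ₗ[ℝ] ℝ :=
  LinearMap.mk₂ ℝ (fun P Q => -facI ((w3 * P) * Dk k (Dk k (w3 * Q))))
    (fun P P' Q => by rw [mul_add, add_mul, facI_add]; ring)
    (fun c P Q => by rw [mul_smul_comm, smul_mul_assoc, facI_smul]; simp)
    (fun P Q Q' => by
      have : Dk k (Dk k (w3 * (Q + Q'))) = Dk k (Dk k (w3 * Q)) + Dk k (Dk k (w3 * Q')) := by
        rw [mul_add]; show DkL k (DkL k (_ + _)) = _; rw [map_add, map_add]; rfl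
      rw [this, mul_add, facI_add]; ring)
    (fun c P Q => by
      have : Dk k (Dk k (w3 * (c • Q))) = c • Dk k (Dk k (w3 * Q)) := by
        rw [mul_smul_comm]; show DkL k (DkL k _) = _; rw [map_smul, map_smul]; rfl
      rw [this, mul_smul_comm, facI_smul]; simp)

/-- `(P, Q) ↦ facI (w3^2 P Q)` -/
private noncomputable def Fm : MP →ₗ[ℝ] MP →ₗ[ℝ] ℝ :=
  LinearMap.mk₂ ℝ (fun P Q => facI (w3 ^ 2 * P * Q))
    (fun P P' Q => by rw [mul_add, add_mul, facI_add])
    (fun c P Q => by rw [mul_smul_comm, smul_mul_assoc, facI_smul]; rfl)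
    (fun P Q Q' => by rw [mul_add, facI_add])
    (fun c P Q => by rw [mul_smul_comm, facI_smul]; rfl)

private theorem evT_add (a b : ℕ) (T S : Tab) (hT : Rect a b T) (hS : Rect a b S) :
    Rect a b (addT T S) ∧ ∀ s s' t t' : ℝ, evT (addT T S) s s' t t' = evT T s s' t t' + evT S s s' t t' := by
  have hadd : ∀ t t' : ℝ, ∀ x y : List ℤ, x.length = b → y.length = b →
      (zw Int.add x y).length = b ∧
      lin (A := ℝ) (fun x : ℤ => (x : ℝ)) (zw Int.add x y) t t' =
        lin (A := ℝ) (fun x : ℤ => (x : ℝ)) x t t' + lin (A := ℝ) (fun x : ℤ => (x : ℝ)) y t t' := by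
    intro t t' x y hx hy
    rw [zw_eq]
    obtain ⟨h1, _, h3⟩ := lin_zip' (A := ℝ) (fun _ => True) Int.add (fun x : ℤ => (x : ℝ))
      (fun x y _ _ => ⟨trivial, Int.cast_add x y⟩) x y (by rw [hx, hy]) (fun _ _ => trivial) (fun _ _ => trivial) t t'
    exact ⟨by rw [h1, hx], h3⟩
  have key : ∀ s s' t t' : ℝ, (zw (zw Int.add) T S).length = T.length ∧ (∀ r ∈ zw (zw Int.add) T S, r.length = b) ∧
      evT (zw (zw Int.add) T S) s s' t t' = evT T s s' t t' + evT S s s' t t' := by
    intro s s' t t'
    rw [zw_eq]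
    exact lin_zip' (A := ℝ) (fun x : List ℤ => x.length = b) (zw Int.add) (fun r => lin (A := ℝ) (fun x : ℤ => (x : ℝ)) r t t')
      (hadd t t') T S (by rw [hT.1, hS.1]) hT.2 hS.2 s s'
  exact ⟨⟨by show (zw (zw Int.add) T S).length = a; rw [(key 0 0 0 0).1, hT.1], (key 0 0 0 0).2.1⟩,
    fun s s' t t' => (key s s' t t').2.2⟩

theorem enma (hF : FACWStmt) (hM : M123Stmt) (hD : ALGDStmt) (hT : TABMStmt) : ENMAStmt := by
  intro m psi hpsi
  -- the three energy tables
  have en : ∀ (k : Fin 3) (D : Net → Net), (∀ n P, Sh (n + 1) P → Sh n (D P) ∧ toP (D P) = Dk k (toP P)) →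
      Rect 3 3 (enT D (mpT (fun p => wN p (m + 1) (mp tl (tl (facN (2 * m + 4))))) psi) (mpT (m123 m) psi)) ∧
      ∀ s s' t t' : ℝ, evT (enT D (mpT (fun p => wN p (m + 1) (mp tl (tl (facN (2 * m + 4))))) psi) (mpT (m123 m) psi)) s s' t t' =
        Fe k (toPT psi s s' t t') (toPT psi s s' t t') := by
    intro k D hDk
    have e1 : enT D (mpT (fun p => wN p (m + 1) (mp tl (tl (facN (2 * m + 4))))) psi) (mpT (m123 m) psi) =
        cv (zw Int.add) (cv Int.add (fun p p' => Int.neg (dotN (D (D (m123 m p')))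
          (wN p (m + 1) (mp tl (tl (facN (2 * m + 4)))))))) psi psi := by
      unfold enT
      rw [mpT_eq, mpT_eq, cv_map]
      congr 1
      funext a b
      exact cv_map _ _ _ _ _ _
    rw [e1]
    apply tab_bil m _ (Fe k) _ psi hpsi
    intro p p' hp hp'
    obtain ⟨g1, g2⟩ := hM m p' hp'
    obtain ⟨g3, g4⟩ := hDk (m + 3) (m123 m p') g1
    obtain ⟨g5, g6⟩ := hDk (m + 2) (D (m123 m p')) g3
    have g7 := (hF m (m + 1) p (D (D (m123 m p'))) hp g5).1
    have e2 : m + (m + 1) + 3 = 2 * m + 4 := by ring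
    rw [e2] at g7
    show ((-(dotN (D (D (m123 m p'))) (wN p (m + 1) (mp tl (tl (facN (2 * m + 4)))))) : ℤ) : ℝ) = _
    rw [Int.cast_neg, g7, g6, g4, g2]
    rfl
  have h1 := en 0 D1 (fun n P h => (hD n P h).1)
  have h2 := en 1 D2 (fun n P h => (hD n P h).2.1)
  have h3 := en 2 D3 (fun n P h => (hD n P h).2.2)
  refine ⟨?_, ?_⟩
  · intro a b C hC1 hC2 hC3
    obtain ⟨r1, v1⟩ := hT.2 a b 2 2 C.1 _ hC1 h1.1
    obtain ⟨r2, v2⟩ := hT.2 a b 2 2 C.2.1 _ hC2 h2.1
    obtain ⟨r3, v3⟩ := hT.2 a b 2 2 C.2.2 _ hC3 h3.1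
    obtain ⟨r4, v4⟩ := evT_add _ _ _ _ r1 r2
    obtain ⟨r5, v5⟩ := evT_add _ _ _ _ r4 r3
    refine ⟨r5, ?_⟩
    intro s s' t t'
    refine (v5 s s' t t').trans ?_
    rw [v4, v1, v2, v3, h1.2, h2.2, h3.2]
    show evT C.1 s s' t t' * (-facI _) + evT C.2.1 s s' t t' * (-facI _) + evT C.2.2 s s' t t' * (-facI _) = _
    unfold w3
    ring
  · have e1 : maTab m psi = cv (zw Int.add) (cv Int.add (fun p p' => dotN p'
        (wN p m (mp (fun r => tl (tl r)) (tl (tl (facN (2 * m + 6)))))))) psi psi := by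
      show cv (zw Int.add) (cv Int.add (fun w f => dotN f w))
        (mpT (fun p => wN p m (mp (fun r => tl (tl r)) (tl (tl (facN (2 * m + 6)))))) psi) psi = _
      rw [mpT_eq]
      conv_lhs => rw [← List.map_id psi]
      rw [List.map_map, cv_map]
      congr 1
      · funext a b
        simp only [Function.comp]
        conv_lhs => rw [← List.map_id b]
        exact cv_map _ _ _ _ _ _
    rw [e1]
    have key := tab_bil m (fun p p' => dotN p' (wN p m (mp (fun r => tl (tl r)) (tl (tl (facN (2 * m + 6)))))))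
      Fm (by
        intro p p' hp hp'
        have g7 := (hF m m p p' hp hp').2
        have e2 : m + m + 6 = 2 * m + 6 := by ring
        rw [e2] at g7
        exact g7) psi hpsi
    refine ⟨key.1, fun s s' t t' => (key.2 s s' t t').trans ?_⟩
    show facI (w3 ^ 2 * _ * _) = _
    congr 1
    unfold w3
    ring

end Pool.TRI.K
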