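import Pool.Agent.H89.TRI.Lib

/-! Block B of TRI: module PACKR (packed family of rows; adapted from PACK of helper34). -/

open MvPolynomial

namespace Pool.TRI.K

/-- the monoid of pairs `(o, q)` with `q k ≤ 2 K o` for `k < m` -/
private def packM (K m : ℕ) : AddSubmonoid (ℕ × (ℕ → ℕ)) where
  carrier := {p | ∀ k < m, p.2 k ≤ 2 * K * p.1}
  zero_mem' := by intro k _; simp
  add_mem' := by
    intro a b ha hb k hk
    have h1 := ha k hk
    have h2 := hb k hk
    simp only [Prod.fst_add, Prod.snd_add, Pi.add_apply, mul_add]
    omega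

/-- combination of the rows (raw entries) -/
private noncomputable def packRaw (K : ℕ) : List Row → List (ℕ → ℕ)
  | [] => []
  | [P] => P.map fun x _ => off K x
  | P :: Ps => List.zipWith (fun x q k => Nat.casesOn (motive := fun _ => ℕ) k (off K x) q) P (packRaw K Ps)

private theorem pack_packR_cons (K W : ℕ) (P Q : Row) (Ps : List Row) :
    packR K W (P :: Q :: Ps) = zw (fun x y => Nat.add (off K x) (Nat.mul W y)) P (packR K W (Q :: Ps)) := rfl

private theorem pack_packR_single (K W : ℕ) (P : Row) : packR K W [P] = mp (off K) P := rfl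

private theorem pack_raw_cons (K : ℕ) (P Q : Row) (Ps : List Row) :
    packRaw K (P :: Q :: Ps) =
      List.zipWith (fun x q k => Nat.casesOn (motive := fun _ => ℕ) k (off K x) q) P (packRaw K (Q :: Ps)) := rfl

private theorem pack_row_left {α β γ δ : Type} (g : α → β → γ) (h1 : γ → δ) (h2 : α → δ)
    (H : ∀ a b, h1 (g a b) = h2 a) (l : List α) (m : List β) (hl : l.length = m.length) :
    (List.zipWith g l m).map h1 = l.map h2 := by
  induction l generalizing m with
  | nil => simp
  | cons a l ih => cases m with
    | nil => simp at hl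
    | cons b m =>
      simp only [List.length_cons, add_left_inj] at hl
      simp [H, ih m hl]

private theorem pack_row_right {α β γ δ : Type} (g : α → β → γ) (h1 : γ → δ) (h2 : β → δ)
    (H : ∀ a b, h1 (g a b) = h2 b) (l : List α) (m : List β) (hl : l.length = m.length) :
    (List.zipWith g l m).map h1 = m.map h2 := by
  induction l generalizing m with
  | nil => cases m with
    | nil => simp
    | cons b m => simp at hl
  | cons a l ih => cases m with
    | nil => simp at hl
    | cons b m =>
      simp only [List.length_cons, add_left_inj] at hl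
      simp [H, ih m hl]

private theorem pack_row_both {α β β' γ δ : Type} (g : α → β → γ) (h1 : γ → δ) (h2 : β → β') (g' : α → β' → δ)
    (H : ∀ a b, h1 (g a b) = g' a (h2 b)) (l : List α) (m : List β) :
    (List.zipWith g l m).map h1 = List.zipWith g' l (m.map h2) := by
  induction l generalizing m with
  | nil => simp
  | cons a l ih => cases m with
    | nil => simp
    | cons b m => simp [H, ih m]

private theorem pack_raw_sh (K n : ℕ) : ∀ Ps : List Row, Ps ≠ [] → (∀ P ∈ Ps, P.length = n) → (packRaw K Ps).length = n := by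
  intro Ps
  induction Ps with
  | nil => intro h; exact absurd rfl h
  | cons P Ps ih =>
    intro _ h
    cases Ps with
    | nil => show (P.map fun x _ => off K x).length = n; rw [List.length_map]; exact h P (by simp)
    | cons Q Ps =>
      rw [pack_raw_cons, List.length_zipWith, ih (by simp) fun R hR => h R (List.mem_cons_of_mem _ hR), h P (by simp), min_self]

private theorem pack_raw_k (K n : ℕ) : ∀ Ps : List Row, (∀ P ∈ Ps, P.length = n) → ∀ (k : ℕ) (hk : k < Ps.length),
    (packRaw K Ps).map (fun q => q k) = (Ps[k]).map (off K) := by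
  intro Ps
  induction Ps with
  | nil => intro _ k hk; simp at hk
  | cons P Ps ih =>
    intro h k hk
    cases Ps with
    | nil =>
      have : k = 0 := by simp at hk; exact hk
      subst this
      show ((P.map fun x _ => off K x).map fun q => q 0) = P.map (off K)
      rw [List.map_map]
      rfl
    | cons Q Ps =>
      rw [pack_raw_cons]
      have hs := pack_raw_sh K n (Q :: Ps) (by simp) fun R hR => h R (List.mem_cons_of_mem _ hR)
      have hP := h P (by simp)
      cases k with
      | zero =>
        exact pack_row_left _ (fun q : ℕ → ℕ => q 0) (off K) (fun a b => rfl) _ _ (by rw [hP, hs])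
      | succ k =>
        rw [pack_row_right _ (fun q : ℕ → ℕ => q (k + 1)) (fun q : ℕ → ℕ => q k) (fun a b => rfl) _ _ (by rw [hP, hs])]
        exact ih (fun R hR => h R (List.mem_cons_of_mem _ hR)) k (by simpa using hk)

private theorem pack_raw_sum (K W : ℕ) : ∀ Ps : List Row, Ps ≠ [] →
    (packRaw K Ps).map (fun q => ∑ k ∈ Finset.range Ps.length, W ^ k * q k) = packR K W Ps := by
  intro Ps
  induction Ps with
  | nil => intro h; exact absurd rfl h
  | cons P Ps ih =>
    intro _
    cases Ps with
    | nil =>
      rw [pack_packR_single, mp_eq]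
      show ((P.map fun x _ => off K x).map _) = _
      rw [List.map_map]
      simp [Function.comp_def]
    | cons Q Ps =>
      rw [pack_raw_cons, pack_packR_cons, ← ih (by simp), zw_eq]
      apply pack_row_both
      intro a q
      show ∑ k ∈ Finset.range (Ps.length + 1 + 1), W ^ k * _ = off K a + W * ∑ k ∈ Finset.range (Ps.length + 1), W ^ k * q k
      rw [Finset.sum_range_succ', Finset.mul_sum, add_comm]
      congr 1
      · simp
      · apply Finset.sum_congr rfl
        intro k _
        rw [pow_succ]; ring

private theorem pack_off_le (K : ℕ) (x : ℤ) (h : x.natAbs ≤ K) : off K x ≤ 2 * K ∧ ((off K x : ℕ) : ℝ) = K + x := by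
  cases x with
  | ofNat k =>
    have : off K (Int.ofNat k) = K + k := rfl
    rw [this]
    have h' : k ≤ K := h
    refine ⟨by omega, by push_cast; simp⟩
  | negSucc k =>
    have : off K (Int.negSucc k) = K - (k + 1) := rfl
    rw [this]
    have h' : k + 1 ≤ K := h
    refine ⟨by omega, ?_⟩
    rw [Nat.cast_sub h', Int.cast_negSucc]
    push_cast; ring

/-- entry of the packed net -/
private def packMk (K m : ℕ) (q : ℕ → ℕ) : packM K m :=
  ⟨(1, fun k => min (q k) (2 * K)), fun k _ => by simp⟩

private def packO (K m : ℕ) : packM K m →+ ℕ where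
  toFun a := a.1.1
  map_zero' := rfl
  map_add' _ _ := rfl

private def packZ (K m W : ℕ) : packM K m →+ ℕ where
  toFun a := ∑ k ∈ Finset.range m, W ^ k * a.1.2 k
  map_zero' := by simp
  map_add' a b := by
    rw [← Finset.sum_add_distrib]
    apply Finset.sum_congr rfl
    intro k _
    simp only [AddSubmonoid.coe_add, Prod.snd_add, Pi.add_apply]
    ring

private noncomputable def packC (K m k : ℕ) : packM K m →+ ℝ where
  toFun a := (a.1.2 k : ℝ) - K * a.1.1
  map_zero' := by simp
  map_add' a b := by
    simp only [AddSubmonoid.coe_add, Prod.snd_add, Prod.fst_add, Pi.add_apply]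
    push_cast; ring

private theorem pack_ones (k : ℕ) {α : Type} (r : List α) (hr : r.length = k) :
    r.map (fun _ => (1 : ℕ)) = Nat.rec (motive := fun _ => List ℕ) [] (fun _ h => 1 :: h) k := by
  induction k generalizing r with
  | zero => rw [List.length_eq_zero_iff] at hr; subst hr; rfl
  | succ k ih =>
    cases r with
    | nil => simp at hr
    | cons a r =>
      simp only [List.length_cons, add_left_inj] at hr
      show 1 :: r.map (fun _ => (1 : ℕ)) = 1 :: Nat.rec (motive := fun _ => List ℕ) [] (fun _ h => 1 :: h) k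
      rw [ih r hr]

private theorem pack_bd (K : ℕ) (P : Row) (h : allR (fun x => Nat.ble (Int.natAbs x) K) P = true) :
    ∀ x ∈ P, x.natAbs ≤ K := by
  intro x hx
  exact Nat.le_of_ble_eq_true ((allR_iff _ _).1 h x hx)

theorem packr (hL : LEAFStmt) : PACKRStmt := by
  intro K w n m Ps hne hlen hbd hsh
  subst hlen
  have hs := pack_raw_sh K n Ps hne hsh
  have hq : ∀ k (_ : k < Ps.length), ∀ q ∈ packRaw K Ps, q k ≤ 2 * K := by
    intro k hk q hq
    have e := pack_raw_k K n Ps hsh k hk
    have h2 : q k ∈ (Ps[k]).map (off K) := by rw [← e]; exact List.mem_map_of_mem hq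
    obtain ⟨x, hx, hx2⟩ := List.mem_map.1 h2
    rw [← hx2]
    exact (pack_off_le K x (pack_bd K _ ((allR_iff _ _).1 hbd _ (List.getElem_mem hk)) x hx)).1
  refine ⟨packM K Ps.length, inferInstance, packO K Ps.length, packZ K Ps.length (2 ^ (w + 1)),
    fun k => packC K Ps.length k, (packRaw K Ps).map (packMk K Ps.length), by rw [List.length_map, hs], ?_, ?_, ?_, ?_⟩
  · rw [List.map_map, ← pack_ones n (packRaw K Ps) hs]
    rfl
  · rw [List.map_map]
    have e : (packZ K Ps.length (2 ^ (w + 1)) ∘ packMk K Ps.length) =
        fun q => ∑ k ∈ Finset.range Ps.length, (2 ^ (w + 1)) ^ k * min (q k) (2 * K) := by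
      funext r
      rfl
    rw [e]
    refine Eq.trans ?_ (pack_raw_sum K (2 ^ (w + 1)) Ps hne)
    apply List.map_congr_left
    intro q hq'
    apply Finset.sum_congr rfl
    intro k hk
    rw [min_eq_left (hq k (Finset.mem_range.1 hk) q hq')]
  · intro k hk y t
    rw [lin_map]
    have e1 : lin (A := ℝ) (fun q => packC K Ps.length k (packMk K Ps.length q)) (packRaw K Ps) y t =
        lin (A := ℝ) (fun q : ℕ → ℕ => (q k : ℝ) - K) (packRaw K Ps) y t := by
      apply lin_congr
      intro q hq'
      show ((min (q k) (2 * K) : ℕ) : ℝ) - K * ((1 : ℕ) : ℝ) = _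
      rw [min_eq_left (hq k hk q hq')]
      push_cast; ring
    rw [e1]
    have e2 : lin (A := ℝ) (fun q : ℕ → ℕ => (q k : ℝ) - K) (packRaw K Ps) y t =
        lin (A := ℝ) (fun j : ℕ => (j : ℝ) - K) ((packRaw K Ps).map fun q => q k) y t := by
      rw [lin_map]
    rw [e2, pack_raw_k K n Ps hsh k hk, lin_map]
    unfold evR
    apply lin_congr
    intro a ha
    have := (pack_off_le K a (pack_bd K _ ((allR_iff _ _).1 hbd _ (List.getElem_mem hk)) a ha)).2
    rw [this]; ring
  · intro a ha k hk
    have h1 := hL (2 * K) K w Ps.length a.1.1 (packZ K Ps.length (2 ^ (w + 1)) a) a.1.2 (fun k hk => a.2 k hk)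
      (by omega) rfl ha k hk
    show (0 : ℝ) ≤ (a.1.2 k : ℝ) - K * a.1.1
    have h2 : ((K * a.1.1 : ℕ) : ℝ) ≤ (a.1.2 k : ℝ) := by exact_mod_cast h1
    push_cast at h2
    linarith

end Pool.TRI.K
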