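import Pool.Agent.H89.TRI.Lib

open MvPolynomial

namespace Pool.TRI.K

section
variable {A M α β γ κ : Type} [CommSemiring A] [AddCommMonoid M] [Module A M]

private theorem lin_zip' (P : α → Prop) (g : α → α → α) (f f1 f2 : α → M)
    (h : ∀ a b, P a → P b → P (g a b) ∧ f (g a b) = f1 a + f2 b)
    (l m : List α) (hl : l.length = m.length) (h1 : ∀ a ∈ l, P a) (h2 : ∀ a ∈ m, P a) (y z : A) :
    (List.zipWith g l m).length = l.length ∧ (∀ a ∈ List.zipWith g l m, P a) ∧
    lin f (List.zipWith g l m) y z = lin f1 l y z + lin f2 m y z := by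
  induction l generalizing m with
  | nil => cases m with
    | nil => simp
    | cons b m => simp at hl
  | cons a l ih => cases m with
    | nil => simp at hl
    | cons b m =>
      simp only [List.length_cons, add_left_inj] at hl
      obtain ⟨i1, i2, i3⟩ := ih m hl (fun x hx => h1 x (by simp [hx])) (fun x hx => h2 x (by simp [hx]))
      have h3 := h a b (h1 a (by simp)) (h2 b (by simp))
      refine ⟨by simp [hl], ?_, ?_⟩
      · intro x hx
        simp only [List.zipWith_cons_cons, List.mem_cons] at hx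
        rcases hx with rfl | hx
        · exact h3.1
        · exact i2 x hx
      · simp only [List.zipWith_cons_cons, lin_cons, i3, h3.2, smul_add, i1, hl]
        abel

end

private theorem toP_eq (R : Net) : toP R = ter (A := MP) (fun a : ℤ => (C (a : ℝ) : MP)) R (X 0) (X 1) (X 2) := rfl

private theorem toP_add (n : ℕ) (P Q : Net) (hP : Sh n P) (hQ : Sh n Q) :
    Sh n (addN P Q) ∧ toP (addN P Q) = toP P + toP Q := by
  induction n generalizing P Q with
  | zero =>
    rw [Sh_zero] at hP hQ; subst hP; subst hQ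
    refine ⟨rfl, ?_⟩
    show toP [] = toP [] + toP []
    simp [toP]
  | succ n ih =>
    obtain ⟨r, P, rfl, hr, hP⟩ := (Sh_succ n _).1 hP
    obtain ⟨r', Q, rfl, hr', hQ⟩ := (Sh_succ n _).1 hQ
    obtain ⟨i1, i2⟩ := ih P Q hP hQ
    have e : addN (r :: P) (r' :: Q) = addR r r' :: addN P Q := rfl
    rw [e]
    refine ⟨⟨?_, i1⟩, ?_⟩
    · rw [addR_eq]; simp [hr, hr']
    · rw [toP_eq (addR r r' :: addN P Q), toP_eq (r :: P), toP_eq (r' :: Q)]
      rw [ter_cons, ter_cons, ter_cons, ← toP_eq, ← toP_eq, ← toP_eq, i2, addR_eq,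
        lin_zip (fun a b : ℤ => a + b) (fun a : ℤ => (C (a : ℝ) : MP)) (fun a : ℤ => (C (a : ℝ) : MP))
        (fun a : ℤ => (C (a : ℝ) : MP)) (by intro a b; simp) r r' (by rw [hr, hr'])]
      simp only [smul_add]
      abel

private theorem toP_sub (n : ℕ) (P Q : Net) (hP : Sh n P) (hQ : Sh n Q) :
    Sh n (subN P Q) ∧ toP (subN P Q) = toP P + (-1 : ℝ) • toP Q := by
  induction n generalizing P Q with
  | zero =>
    rw [Sh_zero] at hP hQ; subst hP; subst hQ
    refine ⟨rfl, ?_⟩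
    show toP [] = toP [] + (-1 : ℝ) • toP []
    simp [toP]
  | succ n ih =>
    obtain ⟨r, P, rfl, hr, hP⟩ := (Sh_succ n _).1 hP
    obtain ⟨r', Q, rfl, hr', hQ⟩ := (Sh_succ n _).1 hQ
    obtain ⟨i1, i2⟩ := ih P Q hP hQ
    have e : subN (r :: P) (r' :: Q) = subR r r' :: subN P Q := rfl
    rw [e]
    refine ⟨⟨?_, i1⟩, ?_⟩
    · rw [subR_eq]; simp [hr, hr']
    · rw [toP_eq (subR r r' :: subN P Q), toP_eq (r :: P), toP_eq (r' :: Q)]
      rw [ter_cons, ter_cons, ter_cons, ← toP_eq, ← toP_eq, ← toP_eq, i2, subR_eq,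
        lin_zip (fun a b : ℤ => a - b) (fun a : ℤ => (C (a : ℝ) : MP)) (fun a : ℤ => (C (a : ℝ) : MP))
        (fun a : ℤ => (-1 : MP) • (C (a : ℝ) : MP)) (by intro a b; simp [sub_eq_add_neg]) r r' (by rw [hr, hr']),
        lin_smul]
      simp only [smul_add, smul_eq_mul, MvPolynomial.smul_eq_C_mul, map_neg, map_one]
      ring

private theorem toP_sm (n : ℕ) (c : ℤ) (P : Net) (hP : Sh n P) :
    Sh n (smN c P) ∧ toP (smN c P) = (c : ℝ) • toP P := by
  have e : smN c P = P.map (List.map (c * ·)) := by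
    rw [smN_eq]; congr 1; funext r; exact smR_eq c r
  rw [e]
  refine ⟨(Sh_map _).2 hP, ?_⟩
  unfold toP
  rw [ter_map]
  have : (c : ℝ) • ter (A := MP) (fun a : ℤ => (C (a : ℝ) : MP)) P (X 0) (X 1) (X 2) =
      (LinearMap.lsmul MP MP (C (c : ℝ))) (ter (A := MP) (fun a : ℤ => (C (a : ℝ) : MP)) P (X 0) (X 1) (X 2)) := by
    rw [LinearMap.lsmul_apply, smul_eq_mul, MvPolynomial.smul_eq_C_mul]
  rw [this, ter_hom]
  congr 1
  funext a
  simp

/-- generic sum of tables -/
private theorem tab_zip (n a b : ℕ) (g : Net → Net → Net) (c : ℝ)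
    (hg : ∀ P Q, Sh n P → Sh n Q → Sh n (g P Q) ∧ toP (g P Q) = toP P + c • toP Q)
    (T T' : List (List Net)) (hT : ShT n a b T) (hT' : ShT n a b T') :
    ShT n a b (zw (zw g) T T') ∧
    ∀ s s' t t' : ℝ, toPT (zw (zw g) T T') s s' t t' = toPT T s s' t t' + c • toPT T' s s' t t' := by
  have inner : ∀ (t t' : ℝ) (x y : List Net), (x.length = b ∧ ∀ P ∈ x, Sh n P) → (y.length = b ∧ ∀ P ∈ y, Sh n P) →
      ((zw g x y).length = b ∧ ∀ P ∈ zw g x y, Sh n P) ∧
      lin (A := ℝ) toP (zw g x y) t t' = lin (A := ℝ) toP x t t' + c • lin (A := ℝ) toP y t t' := by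
    intro t t' x y hx hy
    rw [zw_eq]
    obtain ⟨h1, h2, h3⟩ := lin_zip' (A := ℝ) (Sh n) g toP toP (fun Q => c • toP Q) hg x y (by rw [hx.1, hy.1]) hx.2 hy.2 t t'
    exact ⟨⟨by rw [h1, hx.1], h2⟩, by rw [h3, lin_smul]⟩
  have outer : ∀ s s' t t' : ℝ, (zw (zw g) T T').length = a ∧ (∀ r ∈ zw (zw g) T T', r.length = b ∧ ∀ P ∈ r, Sh n P) ∧
      toPT (zw (zw g) T T') s s' t t' = toPT T s s' t t' + c • toPT T' s s' t t' := by
    intro s s' t t'
    rw [zw_eq]
    obtain ⟨h1, h2, h3⟩ := lin_zip' (A := ℝ) (fun x : List Net => x.length = b ∧ ∀ P ∈ x, Sh n P) (zw g)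
      (fun r => lin (A := ℝ) toP r t t') (fun r => lin (A := ℝ) toP r t t') (fun r => c • lin (A := ℝ) toP r t t')
      (inner t t') T T' (by rw [hT.1.1, hT'.1.1]) (fun r hr => ⟨hT.1.2 r hr, hT.2 r hr⟩)
      (fun r hr => ⟨hT'.1.2 r hr, hT'.2 r hr⟩) s s'
    refine ⟨by rw [h1, hT.1.1], h2, ?_⟩
    show lin (A := ℝ) (fun r => lin (A := ℝ) toP r t t') _ s s' = _
    rw [h3, lin_smul]
    rfl
  exact ⟨⟨⟨(outer 0 0 0 0).1, fun r hr => ((outer 0 0 0 0).2.1 r hr).1⟩, fun r hr => ((outer 0 0 0 0).2.1 r hr).2⟩,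
    fun s s' t t' => (outer s s' t t').2.2⟩

theorem taba : TABAStmt := by
  refine ⟨?_, ?_, ?_⟩
  · intro n a b T T' hT hT'
    obtain ⟨h1, h2⟩ := tab_zip n a b addN 1 (fun P Q hP hQ => by
      obtain ⟨e1, e2⟩ := toP_add n P Q hP hQ; exact ⟨e1, by rw [e2, one_smul]⟩) T T' hT hT'
    obtain ⟨h3, h4⟩ := tab_zip n a b subN (-1) (fun P Q hP hQ => toP_sub n P Q hP hQ) T T' hT hT'
    refine ⟨h1, h3, fun s s' t t' => ⟨?_, ?_⟩⟩
    · exact (h2 s s' t t').trans (by rw [one_smul])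
    · exact (h4 s s' t t').trans (by rw [neg_one_smul, sub_eq_add_neg])
  · intro n m a b f L hf T hT
    have e : mapTN f T = T.map (List.map f) := mpT_eq f T
    rw [e]
    refine ⟨⟨⟨?_, ?_⟩, ?_⟩, ?_⟩
    · rw [List.length_map, hT.1.1]
    · intro r hr
      obtain ⟨r', hr', rfl⟩ := List.mem_map.1 hr
      rw [List.length_map, hT.1.2 r' hr']
    · intro r hr P hP
      obtain ⟨r', hr', rfl⟩ := List.mem_map.1 hr
      obtain ⟨P', hP', rfl⟩ := List.mem_map.1 hP
      exact (hf P' (hT.2 r' hr' P' hP')).1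
    · intro s s' t t'
      unfold toPT
      rw [lin_map, lin_hom L]
      apply lin_congr
      intro r hr
      rw [lin_map, lin_hom L]
      apply lin_congr
      intro P hP
      exact (hf P (hT.2 r hr P hP)).2
  · intro n a b T P hT hP
    have e : tabN T P = T.map (List.map (fun c => smN c P)) := mpT_eq _ T
    rw [e]
    refine ⟨⟨⟨?_, ?_⟩, ?_⟩, ?_⟩
    · rw [List.length_map, hT.1]
    · intro r hr
      obtain ⟨r', hr', rfl⟩ := List.mem_map.1 hr
      rw [List.length_map, hT.2 r' hr']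
    · intro r hr Q hQ
      obtain ⟨r', hr', rfl⟩ := List.mem_map.1 hr
      obtain ⟨c, _, rfl⟩ := List.mem_map.1 hQ
      exact (toP_sm n c P hP).1
    · intro s s' t t'
      have key : ∀ x : ℝ, x • toP P = (LinearMap.toSpanSingleton ℝ MP (toP P)) x := fun x => by simp
      unfold toPT evT
      rw [lin_map, key, lin_hom]
      apply lin_congr
      intro r hr
      rw [lin_map, lin_hom]
      apply lin_congr
      intro c hc
      rw [(toP_sm n c P hP).2, key]

end Pool.TRI.K
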