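import Pool.Agent.H89.TRI.Lib

open MvPolynomial

namespace Pool.TRI.K

private noncomputable def evL (x : Fin 3 → ℝ) : MP →ₗ[ℝ] ℝ := (MvPolynomial.aeval x : MP →ₐ[ℝ] ℝ).toLinearMap

private theorem evL_apply (x : Fin 3 → ℝ) (F : MP) : evL x F = evx x F := by
  unfold evL evx
  simp [MvPolynomial.aeval_eq_eval]

private theorem evx_toPT (T : List (List Net)) (s s' t t' : ℝ) (x : Fin 3 → ℝ) :
    evx x (toPT T s s' t t') = lin (A := ℝ) (fun r => lin (A := ℝ) (fun P => evx x (toP P)) r t t') T s s' := by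
  rw [← evL_apply]
  unfold toPT
  rw [lin_hom]
  apply lin_congr
  intro r _
  rw [lin_hom]
  apply lin_congr
  intro P _
  exact evL_apply x (toP P)

private theorem lin_pos {α : Type} (f : α → ℝ) (l : List α) (h : ∀ a ∈ l, 0 < f a) (hl : l ≠ []) (y z : ℝ)
    (hy : 0 ≤ y) (hz : 0 ≤ z) (hyz : y + z = 1) : 0 < lin (A := ℝ) f l y z := by
  induction l with
  | nil => exact absurd rfl hl
  | cons a l ih =>
    rw [lin_cons, smul_eq_mul, smul_eq_mul]
    have h0 := h a (by simp)
    rcases hz.lt_or_eq with hz' | hz'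
    · have h1 : 0 < z ^ l.length * f a := mul_pos (pow_pos hz' _) h0
      have h2 : 0 ≤ lin (A := ℝ) f l y z := lin_nonneg f l (fun b hb => (h b (by simp [hb])).le) y z hy hz
      have h3 := mul_nonneg hy h2
      linarith
    · have hy1 : y = 1 := by linarith
      by_cases h0l : l = []
      · subst h0l; simp; exact h0
      · have h2 := ih (fun b hb => h b (by simp [hb])) h0l
        have h3 : 0 ≤ z ^ l.length * f a := mul_nonneg (pow_nonneg hz _) h0.le
        rw [hy1] at h2 ⊢
        linarith

theorem tabp : TABPStmt := by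
  refine ⟨?_, ?_, ?_⟩
  · intro n a b T hT s s' t t' hs hs' ht ht' x hx
    rw [evx_toPT]
    apply lin_nonneg _ _ _ _ _ hs hs'
    intro r hr
    apply lin_nonneg _ _ _ _ _ ht ht'
    intro P hP
    apply hx
    rw [flat_eq]
    exact List.mem_flatten.2 ⟨r, hr, hP⟩
  · intro a b T hT hall s s' t t' hs hs' ht ht' h1 h2
    unfold evT
    rw [allR_iff] at hall
    apply lin_pos _ _ _ _ _ _ hs hs' h1
    · intro r hr
      have h3 := (allR_iff _ _).1 (hall r hr)
      apply lin_pos _ _ _ _ _ _ ht ht' h2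
      · intro c hc
        have h4 : posI c = true := h3 c hc
        have h5 := (posI_iff c).1 h4
        exact_mod_cast h5
      · intro h; have := hT.2 r hr; rw [h] at this; simp at this
    · intro h; have := hT.1; rw [h] at this; simp at this
  · intro n a b T _ P
    rw [flat_eq]
    constructor
    · intro h
      obtain ⟨r, hr, hP⟩ := List.mem_flatten.1 h
      exact ⟨r, hr, hP⟩
    · rintro ⟨r, hr, hP⟩
      exact List.mem_flatten.2 ⟨r, hr, hP⟩

end Pool.TRI.K
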