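import Pool.Agent.H89.TRI.AllK
import Pool.Agent.H89.TRI.Cov0
import Pool.Agent.H89.TRI.Cov1
import Pool.Agent.H89.TRI.PACK2
import Pool.Agent.H89.TRI.PACKR
import Pool.Agent.H89.TRI.TABA
import Pool.Agent.H89.TRI.TABP
import Pool.Agent.H87.TRI.BAS
import Pool.Agent.H87.TRI.BARY
import Pool.Agent.H8.TRI.CHR
import Pool.Agent.H8.TRI.EQD
import Pool.Agent.H12.TRI.DKE
import Pool.Agent.H12.TRI.KIF
import Pool.Agent.H12.TRI.FPOS
import Pool.Agent.H12.TRI.BIBP
import Pool.Agent.H12.TRI.BPERM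
import Pool.Agent.H19.TRI.CMP
import Pool.Agent.H19.TRI.RAYF
import Pool.Agent.H97.TRI.ORD
import Pool.Agent.H69.TRI.FINAL

/-! The inequality away from the equilateral triangle, and the final theorem, from the statements of block A. -/

namespace Pool.TRI

theorem far_of (h1 : A.MaxPStmt) (h2 : A.LapBStmt) (h3 : A.DirStmt) (h4 : A.RayKStmt) : FarStmt := by
  have cmp' : CMPStmt := cmp h1 h2 bas dke
  have kif' : KIFStmt := kif h3
  have fpos' : FPOSStmt := fpos kif'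
  have rayf' : RAYFStmt := rayf h4 dke kif' ibp fpos'
  obtain ⟨hC, hQ⟩ := K.box_of (K.pack2 K.leaf) (K.packr K.leaf) K.taba K.tabp bas cmp' rayf' fpos'
  exact chr bas (K.cover0 hC hQ) (K.cover1 hC hQ)

theorem final_of (h1 : A.MaxPStmt) (h2 : A.LapBStmt) (h3 : A.DirStmt) (h4 : A.RayKStmt) (h5 : NearStmt)
    (h6 : EquiStmt) : FinalStmt :=
  final h5 h6 (far_of h1 h2 h3 h4) bary (ord perm) (eqd bas)

end Pool.TRI
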