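import Pool.Agent.H89.TRI.Stmts

/-! Library: the recursor functions of `K` in terms of `List` functions; algebra of `lin` and `ter`. -/

open MvPolynomial

namespace Pool.TRI.K

/-! ### unfolding -/

section Unfold
variable {α β γ : Type}

theorem mp_eq (f : α → β) (l : List α) : mp f l = l.map f := by
  induction l with
  | nil => rfl
  | cons a l ih => show f a :: mp f l = _; rw [ih]; rfl

theorem zw_eq (f : α → β → γ) (l : List α) (m : List β) : zw f l m = List.zipWith f l m := by
  induction l generalizing m with
  | nil => rfl
  | cons a l ih => cases m with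
    | nil => rfl
    | cons b m => show f a b :: zw f l m = _; rw [ih]; rfl

@[simp] theorem zl_nil (f : α → α → α) (m : List α) : zl f [] m = m := rfl
@[simp] theorem zl_nil' (f : α → α → α) (l : List α) : zl f l [] = l := by cases l <;> rfl
@[simp] theorem zl_cons (f : α → α → α) (a b : α) (l m : List α) : zl f (a :: l) (b :: m) = f a b :: zl f l m := rfl

theorem zl_length (f : α → α → α) (l m : List α) : (zl f l m).length = max l.length m.length := by
  induction l generalizing m with
  | nil => simp
  | cons a l ih => cases m with
    | nil => simp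
    | cons b m => simp [ih, Nat.succ_max_succ]

@[simp] theorem cv_nil {κ : Type} (add : γ → γ → γ) (sm : κ → β → γ) (E : List β) : cv add sm ([] : List κ) E = [] := rfl
@[simp] theorem cv_nil' {κ : Type} (add : γ → γ → γ) (sm : κ → β → γ) (c : List κ) : cv add sm c ([] : List β) = [] := by
  cases c <;> rfl
@[simp] theorem cv_cons {κ : Type} (add : γ → γ → γ) (sm : κ → β → γ) (c : κ) (cs : List κ) (e : β) (E : List β) :
    cv add sm (c :: cs) (e :: E) = sm c e :: zl add (E.map (sm c)) (cv add sm cs (e :: E)) := by
  rw [← mp_eq]; rfl

theorem cv_length {κ : Type} (add : γ → γ → γ) (sm : κ → β → γ) (c : List κ) (E : List β) (hc : c ≠ []) (hE : E ≠ []) :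
    (cv add sm c E).length = c.length + E.length - 1 := by
  obtain ⟨e, E, rfl⟩ := List.exists_cons_of_ne_nil hE
  induction c with
  | nil => exact absurd rfl hc
  | cons a c ih =>
    rw [cv_cons, List.length_cons, zl_length, List.length_map]
    by_cases h : c = []
    · subst h; simp
    · rw [ih h]; simp only [List.length_cons]
      have : 0 < c.length := List.length_pos_iff.2 h
      omega

theorem tl_eq (l : List α) : tl l = l.tail := by cases l <;> rfl

@[simp] theorem dl_nil : dl ([] : List α) = [] := rfl
@[simp] theorem dl_single (a : α) : dl [a] = [] := rfl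
@[simp] theorem dl_cons (a b : α) (l : List α) : dl (a :: b :: l) = a :: dl (b :: l) := rfl

theorem dl_eq (l : List α) : dl l = l.dropLast := by
  induction l with
  | nil => rfl
  | cons a l ih => cases l with
    | nil => rfl
    | cons b l => rw [dl_cons, ih]; rfl

theorem rev_aux (l acc : List α) :
    List.rec (motive := fun _ => List α → List α) (fun acc => acc) (fun a _ ih acc => ih (a :: acc)) l acc =
      l.reverse ++ acc := by
  induction l generalizing acc with
  | nil => rfl
  | cons a l ih =>
    show List.rec (motive := fun _ => List α → List α) (fun acc => acc) (fun a _ ih acc => ih (a :: acc)) l (a :: acc) = _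
    rw [ih]; simp

theorem rev_eq (l : List α) : rev l = l.reverse := by
  unfold rev; rw [rev_aux]; simp

theorem allR_eq (f : α → Bool) (l : List α) : allR f l = l.all f := by
  induction l with
  | nil => rfl
  | cons a l ih =>
    show Bool.rec (motive := fun _ => Bool) false (allR f l) (f a) = _
    rw [ih]; cases h : f a <;> simp [h]

theorem allR_iff (f : α → Bool) (l : List α) : allR f l = true ↔ ∀ a ∈ l, f a = true := by
  rw [allR_eq, List.all_eq_true]

theorem flat_aux (l : List α) (m : List α) :
    List.rec (motive := fun _ => List α) m (fun a _ ih2 => a :: ih2) l = l ++ m := by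
  induction l with
  | nil => rfl
  | cons a l ih =>
    show a :: List.rec (motive := fun _ => List α) m (fun a _ ih2 => a :: ih2) l = _
    rw [ih]; rfl

theorem flat_eq (T : List (List α)) : flat T = T.flatten := by
  induction T with
  | nil => rfl
  | cons l T ih =>
    show List.rec (motive := fun _ => List α) (flat T) (fun a _ ih2 => a :: ih2) l = _
    rw [flat_aux, ih]; rfl

theorem len_eq (l : List α) : len l = l.length := by
  induction l with
  | nil => rfl
  | cons a l ih => show Nat.succ (len l) = _; rw [ih]; rfl

theorem and2_iff (a b : Bool) : and2 a b = true ↔ a = true ∧ b = true := by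
  cases a <;> cases b <;> simp [and2]

@[simp] theorem hd_nil (d : α) : hd d [] = d := rfl
@[simp] theorem hd_cons (d a : α) (l : List α) : hd d (a :: l) = a := rfl

theorem takeR_eq (n : ℕ) (l : List α) : takeR n l = l.take n := by
  induction n generalizing l with
  | zero => rfl
  | succ n ih => cases l with
    | nil => rfl
    | cons a l => show a :: takeR n l = _; rw [ih]; rfl

theorem mpT_eq (f : α → β) (T : List (List α)) : mpT f T = T.map (List.map f) := by
  unfold mpT; rw [mp_eq]; congr 1; funext l; exact mp_eq f l

theorem addR_eq (l m : Row) : addR l m = List.zipWith (· + ·) l m := zw_eq _ _ _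
theorem subR_eq (l m : Row) : subR l m = List.zipWith (· - ·) l m := zw_eq _ _ _
theorem smR_eq (c : ℤ) (l : Row) : smR c l = l.map (c * ·) := mp_eq _ _
theorem addN_eq (P Q : Net) : addN P Q = List.zipWith addR P Q := zw_eq _ _ _
theorem subN_eq (P Q : Net) : subN P Q = List.zipWith subR P Q := zw_eq _ _ _
theorem smN_eq (c : ℤ) (P : Net) : smN c P = P.map (smR c) := mp_eq _ _

@[simp] theorem posI_iff (x : ℤ) : posI x = true ↔ 0 < x := by
  cases x with
  | ofNat k =>
    show Nat.blt 0 k = true ↔ _
    rw [Nat.blt_eq]; simp
  | negSucc k =>
    show false = true ↔ _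
    have := Int.negSucc_lt_zero k
    constructor
    · intro h; exact absurd h (by simp)
    · intro h; omega

end Unfold

/-! ### binary forms -/

section Lin
variable {A M α β : Type} [CommSemiring A] [AddCommMonoid M] [Module A M]

@[simp] theorem lin_nil (f : α → M) (y z : A) : lin f [] y z = 0 := rfl
@[simp] theorem lin_cons (f : α → M) (a : α) (l : List α) (y z : A) :
    lin f (a :: l) y z = z ^ l.length • f a + y • lin f l y z := rfl

theorem lin_single (f : α → M) (a : α) (y z : A) : lin f [a] y z = f a := by simp

theorem lin_map (g : β → α) (f : α → M) (l : List β) (y z : A) :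
    lin f (l.map g) y z = lin (fun b => f (g b)) l y z := by
  induction l with
  | nil => rfl
  | cons a l ih => simp [ih]

theorem lin_congr {f g : α → M} (l : List α) (h : ∀ a ∈ l, f a = g a) (y z : A) : lin f l y z = lin g l y z := by
  induction l with
  | nil => rfl
  | cons a l ih => simp [h a (by simp), ih (fun b hb => h b (by simp [hb]))]

theorem lin_zero (l : List α) (y z : A) : lin (fun _ : α => (0 : M)) l y z = 0 := by
  induction l with
  | nil => rfl
  | cons a l ih => simp [ih]

theorem lin_add (f g : α → M) (l : List α) (y z : A) :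
    lin (fun a => f a + g a) l y z = lin f l y z + lin g l y z := by
  induction l with
  | nil => simp
  | cons a l ih => simp only [lin_cons, ih, smul_add]; abel

theorem lin_smul (c : A) (f : α → M) (l : List α) (y z : A) :
    lin (fun a => c • f a) l y z = c • lin f l y z := by
  induction l with
  | nil => simp
  | cons a l ih => simp only [lin_cons, ih, smul_add, smul_smul]; rw [mul_comm _ c, mul_comm y c]

/-- additive (and `A`-linear) maps commute with `lin` -/
theorem lin_hom {N : Type} [AddCommMonoid N] [Module A N] (φ : M →ₗ[A] N) (f : α → M) (l : List α) (y z : A) :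
    φ (lin f l y z) = lin (fun a => φ (f a)) l y z := by
  induction l with
  | nil => simp
  | cons a l ih => simp [ih]

/-- change of the coefficient ring (scalar forms) -/
theorem lin_ringHom {B : Type} [CommSemiring B] (φ : A →+* B) (f : α → A) (l : List α) (y z : A) :
    φ (lin f l y z) = lin (fun a => φ (f a)) l (φ y) (φ z) := by
  induction l with
  | nil => simp
  | cons a l ih => simp [ih, smul_eq_mul]

theorem lin_zip (g : α → β → β) (f : β → M) (f1 : α → M) (f2 : β → M) (h : ∀ a b, f (g a b) = f1 a + f2 b)
    (l : List α) (m : List β) (hl : l.length = m.length) (y z : A) :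
    lin f (List.zipWith g l m) y z = lin f1 l y z + lin f2 m y z := by
  induction l generalizing m with
  | nil => cases m with
    | nil => simp
    | cons b m => simp at hl
  | cons a l ih => cases m with
    | nil => simp at hl
    | cons b m =>
      simp only [List.length_cons, add_left_inj] at hl
      simp only [List.zipWith_cons_cons, lin_cons, ih m hl, h, smul_add, List.length_zipWith, hl, min_self]
      abel

theorem lin_append_single (f : α → M) (l : List α) (a : α) (y z : A) :
    lin f (l ++ [a]) y z = z • lin f l y z + y ^ l.length • f a := by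
  induction l with
  | nil => simp
  | cons b l ih =>
    simp only [List.cons_append, lin_cons, ih, List.length_append, List.length_cons, List.length_nil, zero_add,
      smul_add, smul_smul, pow_succ]
    rw [mul_comm z (z ^ l.length), mul_comm y z, mul_comm (y ^ l.length) y]
    abel

theorem lin_reverse (f : α → M) (l : List α) (y z : A) : lin f l.reverse y z = lin f l z y := by
  induction l with
  | nil => rfl
  | cons b l ih => rw [List.reverse_cons, lin_append_single, ih]; simp [add_comm]

end Lin

theorem lin_nonneg {α : Type} (f : α → ℝ) (l : List α) (h : ∀ a ∈ l, 0 ≤ f a) (y z : ℝ) (hy : 0 ≤ y) (hz : 0 ≤ z) :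
    0 ≤ lin (A := ℝ) f l y z := by
  induction l with
  | nil => simp
  | cons a l ih =>
    rw [lin_cons]
    exact add_nonneg (mul_nonneg (pow_nonneg hz _) (h a (by simp)))
      (mul_nonneg hy (ih (fun b hb => h b (by simp [hb]))))

/-! ### ternary forms -/

section Ter
variable {A M α β : Type} [CommSemiring A] [AddCommMonoid M] [Module A M]

@[simp] theorem ter_nil (f : α → M) (x y z : A) : ter f [] x y z = 0 := rfl
@[simp] theorem ter_cons (f : α → M) (r : List α) (P : List (List α)) (x y z : A) :
    ter f (r :: P) x y z = lin f r y z + x • ter f P x y z := rfl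

theorem ter_map (g : β → α) (f : α → M) (P : List (List β)) (x y z : A) :
    ter f (P.map (List.map g)) x y z = ter (fun b => f (g b)) P x y z := by
  induction P with
  | nil => rfl
  | cons r P ih => simp [ih, lin_map]

theorem ter_add (f g : α → M) (P : List (List α)) (x y z : A) :
    ter (fun a => f a + g a) P x y z = ter f P x y z + ter g P x y z := by
  induction P with
  | nil => simp
  | cons r P ih => simp only [ter_cons, ih, smul_add, lin_add]; abel

theorem ter_hom {N : Type} [AddCommMonoid N] [Module A N] (φ : M →ₗ[A] N) (f : α → M) (P : List (List α)) (x y z : A) :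
    φ (ter f P x y z) = ter (fun a => φ (f a)) P x y z := by
  induction P with
  | nil => simp
  | cons r P ih => simp [ih, lin_hom]

theorem ter_ringHom {B : Type} [CommSemiring B] (φ : A →+* B) (f : α → A) (P : List (List α)) (x y z : A) :
    φ (ter f P x y z) = ter (fun a => φ (f a)) P (φ x) (φ y) (φ z) := by
  induction P with
  | nil => simp
  | cons r P ih => simp [ih, smul_eq_mul, lin_ringHom]

end Ter

theorem ter_nonneg {α : Type} (f : α → ℝ) (P : List (List α)) (h : ∀ r ∈ P, ∀ a ∈ r, 0 ≤ f a) (x y z : ℝ)
    (hx : 0 ≤ x) (hy : 0 ≤ y) (hz : 0 ≤ z) : 0 ≤ ter (A := ℝ) f P x y z := by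
  induction P with
  | nil => simp
  | cons r P ih =>
    rw [ter_cons]
    exact add_nonneg (lin_nonneg f r (h r (by simp)) y z hy hz)
      (mul_nonneg hx (ih (fun b hb => h b (by simp [hb]))))

/-! ### shapes -/

theorem Sh_zero {α : Type} (P : List (List α)) : Sh 0 P ↔ P = [] := Iff.rfl

theorem Sh_succ {α : Type} (n : ℕ) (P : List (List α)) :
    Sh (n + 1) P ↔ ∃ r P', P = r :: P' ∧ r.length = n + 1 ∧ Sh n P' := by
  cases P with
  | nil => exact ⟨fun h => h.elim, fun ⟨r, P', h, _⟩ => by simp at h⟩
  | cons r P' =>
    constructor
    · intro h; exact ⟨r, P', rfl, h.1, h.2⟩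
    · rintro ⟨r', P'', h, h1, h2⟩
      obtain ⟨rfl, rfl⟩ := List.cons.inj h
      exact ⟨h1, h2⟩

theorem Sh_cons {α : Type} (n : ℕ) (r : List α) (P : List (List α)) :
    Sh (n + 1) (r :: P) ↔ r.length = n + 1 ∧ Sh n P := Iff.rfl

theorem Sh_length {α : Type} {n : ℕ} {P : List (List α)} (h : Sh n P) : P.length = n := by
  induction n generalizing P with
  | zero => rw [Sh_zero] at h; simp [h]
  | succ n ih =>
    obtain ⟨r, P', rfl, _, h2⟩ := (Sh_succ n P).1 h
    simp [ih h2]

theorem Sh_map {α β : Type} {n : ℕ} {P : List (List α)} (f : α → β) : Sh n (P.map (List.map f)) ↔ Sh n P := by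
  induction n generalizing P with
  | zero => simp [Sh_zero]
  | succ n ih =>
    cases P with
    | nil => simp [Sh_succ]
    | cons r P => simp only [List.map_cons, Sh_cons, List.length_map, ih]

/-- row `i` of a net of size `n` has length `n - i` -/
theorem Sh_getElem {α : Type} {n : ℕ} {P : List (List α)} (h : Sh n P) (i : ℕ) (hi : i < P.length) :
    (P[i]).length = n - i := by
  induction n generalizing P i with
  | zero => rw [Sh_zero] at h; subst h; simp at hi
  | succ n ih =>
    obtain ⟨r, P', rfl, h1, h2⟩ := (Sh_succ n P).1 h
    cases i with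
    | zero => simpa using h1
    | succ i =>
      simp only [List.length_cons, add_lt_add_iff_right] at hi
      simpa using ih h2 i hi

/-- `evN` is the value of the polynomial `toP` -/
theorem evx_toP (P : Net) (x : Fin 3 → ℝ) : evx x (toP P) = evN P (x 0) (x 1) (x 2) := by
  unfold evx toP evN
  rw [ter_ringHom (MvPolynomial.eval x)]
  simp

end Pool.TRI.K
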