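import Pool.Agent.H89.TRI.Targets
import Pool.Agent.H89.TRI.K.Box

/-!
Semantics of the kernel functions (rows = binary forms, nets = ternary forms, tables = forms in the two pairs
`s, s'` and `t, t'` of parameters) and the polynomial side of the analysis.
-/

open MeasureTheory Set Filter Topology MvPolynomial
open scoped Real ContDiff Laplacian

namespace Pool.TRI

/-! ### polynomials in the barycentric coordinates -/

/-- real polynomials in three variables -/
abbrev MP := MvPolynomial (Fin 3) ℝ

/-- `Dk k F = ∂_{k+1} F - ∂_{k+2} F` (indices mod 3) -/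
noncomputable def Dk (k : Fin 3) (F : MP) : MP := pderiv (k + 1) F - pderiv (k + 2) F

/-- evaluation at a point of `ℝ^3` -/
noncomputable def evx (x : Fin 3 → ℝ) (F : MP) : ℝ := MvPolynomial.eval x F

/-- evaluation at the barycentric coordinates of `z` -/
noncomputable def Bary.ev {T : Set ℂ} (B : Bary T) (F : MP) (z : ℂ) : ℝ := evx (fun k => B.x k z) F

/-- the linear functional with `facI (X^α) = α 0 ! * α 1 ! * α 2 !` -/
noncomputable def facI (F : MP) : ℝ :=
  ∑ α ∈ F.support, coeff α F * (((α 0).factorial * (α 1).factorial * (α 2).factorial : ℕ) : ℝ)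

/-- the charts of coefficient vectors -/
noncomputable def chi (typ : Bool) (u v : ℝ) : Fin 3 → ℝ :=
  Bool.rec (motive := fun _ => Fin 3 → ℝ) ![1, 1 - u * v, 1 - u] ![u, 1 - u, v - u * (1 - u)] typ

/-- the inequality holds strictly for all triangles with coefficients in a box -/
def BoxGood (typ : Bool) (q U0 U1 V0 V1 : ℤ) : Prop :=
  ∀ (T : Set ℂ) (B : Bary T) (w : ℂ → ℝ), IsExit T w → ∀ s u v : ℝ, 0 < s →
    (U0 : ℝ) ≤ q * u → q * u ≤ (U1 : ℝ) → (V0 : ℝ) ≤ q * v → q * v ≤ (V1 : ℝ) →
    (∀ k, B.c k = s * chi typ u v k) → lambda1 T * sSup (w '' T) < 8 * π ^ 2 / 27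

namespace K

/-! ### binary and ternary forms -/

section Forms
variable {A M α : Type} [CommSemiring A] [AddCommMonoid M] [Module A M]

/-- binary form `∑ f (l j) y^j z^(d-j)`, `d = length l - 1` -/
def lin (f : α → M) : List α → A → A → M
  | [], _, _ => 0
  | a :: l, y, z => z ^ l.length • f a + y • lin f l y z

/-- ternary form `∑ f (P i j) x^i y^j z^(N-i-j)` of a net `P` -/
def ter (f : α → M) : List (List α) → A → A → A → M
  | [], _, _, _ => 0
  | r :: P, x, y, z => lin f r y z + x • ter f P x y z

end Forms

/-- rows of length `n, n-1, ..., 1` -/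
def Sh {α : Type} : ℕ → List (List α) → Prop
  | 0, P => P = []
  | _ + 1, [] => False
  | n + 1, r :: P => r.length = n + 1 ∧ Sh n P

/-- `a` rows of length `b` -/
def Rect {α : Type} (a b : ℕ) (T : List (List α)) : Prop := T.length = a ∧ ∀ r ∈ T, r.length = b

/-- `a x b` table of nets with rows of length `n, ..., 1` -/
def ShT (n a b : ℕ) (T : List (List Net)) : Prop := Rect a b T ∧ ∀ r ∈ T, ∀ P ∈ r, Sh n P

/-- value of an integral net at a point (`x0, x1, x2`) -/
noncomputable def evN (P : Net) (x0 x1 x2 : ℝ) : ℝ := ter (A := ℝ) (fun a : ℤ => (a : ℝ)) P x0 x1 x2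

/-- value of a row at `(y, z)` -/
noncomputable def evR (l : Row) (y z : ℝ) : ℝ := lin (A := ℝ) (fun a : ℤ => (a : ℝ)) l y z

/-- the polynomial of a net -/
noncomputable def toP (P : Net) : MP := ter (A := MP) (fun a : ℤ => (C (a : ℝ) : MP)) P (X 0) (X 1) (X 2)

/-- value of a table of integers -/
noncomputable def evT (T : Tab) (s s' t t' : ℝ) : ℝ :=
  lin (A := ℝ) (fun r => lin (A := ℝ) (fun a : ℤ => (a : ℝ)) r t t') T s s'

/-- value (a polynomial) of a table of nets -/
noncomputable def toPT (T : List (List Net)) (s s' t t' : ℝ) : MP :=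
  lin (A := ℝ) (fun r => lin (A := ℝ) toP r t t') T s s'

/-! ### the functions of `K.Core` over an arbitrary commutative monoid -/

section Gen
variable {α : Type} [AddCommMonoid α]

def stpG (a : ℕ) (c : α) : List α → α → List α
  | [], p => [c + a • p]
  | x :: g, p => (x + a • p) :: stpG a c g x

def shRG (a : ℕ) : List α → List α
  | [] => []
  | c :: l => stpG a c (shRG a l) 0

def shLG (a : ℕ) : List α → List α → List α
  | [], acc => acc
  | c :: l, acc => shLG a l (stpG a c acc 0)

def scAG (b : ℕ) : List α → ℕ → List α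
  | [], _ => []
  | c :: l, p => (p • c) :: scAG b l (p * b)

def scDG (b : ℕ) : List α → List α
  | [] => []
  | c :: l => (b ^ l.length • c) :: scDG b l

def row1G (a b : ℕ) (l : List α) : List α := shRG a (scDG b l)
def row2G (a b : ℕ) (l : List α) : List α := shLG b (scAG a l 1) []

noncomputable def child1G (a b : ℕ) (P : List (List α)) : List (List α) := tr (P.map (row1G a b))
noncomputable def child2G (a b : ℕ) (P : List (List α)) : List (List α) := tr (P.map (row2G a b))

end Gen

end K

end Pool.TRI
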