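import Pool.Agent.H89.TRI.Sem
import Pool.Agent.H69.TRI.StmtsP
import Pool.Agent.H69.TRI.StmtsL

open MeasureTheory Set Filter Topology MvPolynomial
open scoped Real ContDiff Laplacian

namespace Pool.TRI

/-! ## E. analysis -/

/-- facts on a triangle given by barycentric data -/
def BASStmt : Prop :=
  ∀ (T : Set ℂ) (B : Bary T),
    IsOpen T ∧ Bornology.IsBounded T ∧ T.Nonempty ∧ Convex ℝ T ∧ (∀ z, B.x 0 z + B.x 1 z + B.x 2 z = 1) ∧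
    (∀ z, z ∈ T ↔ ∀ k, 0 < B.x k z) ∧ (∀ z, z ∈ closure T ↔ ∀ k, 0 ≤ B.x k z) ∧
    (∀ z, z ∈ frontier T ↔ (∀ k, 0 ≤ B.x k z) ∧ ∃ k, B.x k z = 0) ∧
    (∀ y : Fin 3 → ℝ, y 0 + y 1 + y 2 = 1 → ∃ z, ∀ k, B.x k z = y k) ∧
    (∀ k, ‖B.g k‖ ^ 2 = B.c (k + 1) + B.c (k + 2)) ∧
    (∀ k, B.g (k + 1) ≠ 0 ∧ (B.g (k + 1) * (starRingEnd ℂ) (B.g (k + 2))).re = -B.c k) ∧
    0 < B.c 0 * B.c 1 + B.c 1 * B.c 2 + B.c 2 * B.c 0 ∧ 0 < B.c 0 + B.c 1 ∧ 0 < B.c 1 + B.c 2 ∧ 0 < B.c 2 + B.c 0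

/-- polynomials as functions: smoothness and derivatives -/
def DKEStmt : Prop :=
  ∀ F : MP, ContDiff ℝ ∞ (fun x : Fin 3 → ℝ => evx x F) ∧ ∀ k x, A.DD k (fun y => evx y F) x = evx x (Dk k F)

/-- comparison with polynomial supersolutions and subsolutions -/
def CMPStmt : Prop :=
  ∀ (T : Set ℂ) (B : Bary T) (u : ℂ → ℝ), IsExit T u → ∀ (F : MP) (s : ℝ),
    ((∀ z ∈ T, 2 * s ≤ -∑ k, B.c k * B.ev (Dk k (Dk k F)) z) →
      (∀ z, (∀ k, 0 ≤ B.x k z) → (∃ k, B.x k z = 0) → 0 ≤ B.ev F z) → ∀ z ∈ T, s * u z ≤ B.ev F z) ∧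
    ((∀ z ∈ T, -∑ k, B.c k * B.ev (Dk k (Dk k F)) z ≤ 2 * s) →
      (∀ z, (∀ k, 0 ≤ B.x k z) → (∃ k, B.x k z = 0) → B.ev F z ≤ 0) → ∀ z ∈ T, B.ev F z ≤ s * u z)

/-- Dirichlet's formula: the integral of a form of degree `d` over the simplex -/
def KIFStmt : Prop :=
  ∀ (d : ℕ) (F : MP), F.IsHomogeneous d → A.KI (fun x => evx x F) = facI F / ((d + 2).factorial : ℝ)

/-- integration by parts in terms of `facI` (purely algebraic: `facI (Dk k (F * Dk k F)) = 0`) -/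
def IBPStmt : Prop :=
  ∀ (ψ : MP) (k : Fin 3), facI ((Dk k (X 0 * X 1 * X 2 * ψ)) ^ 2) =
    -facI ((X 0 * X 1 * X 2 * ψ) * Dk k (Dk k (X 0 * X 1 * X 2 * ψ)))

/-- positivity of the form `facI (F^2)` -/
def FPOSStmt : Prop :=
  ∀ (d : ℕ) (F : MP), F.IsHomogeneous d → 0 ≤ facI (F ^ 2) ∧ (facI (F ^ 2) = 0 → F = 0)

/-- polynomial trial functions -/
def RAYFStmt : Prop :=
  ∀ (T : Set ℂ) (B : Bary T) (m : ℕ) (ψ : MP), ψ.IsHomogeneous m → ψ ≠ 0 →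
    lambda1 T * facI ((X 0 * X 1 * X 2 * ψ) ^ 2) ≤
      (2 * m + 7) * (2 * m + 8) *
        (-∑ k, B.c k * facI ((X 0 * X 1 * X 2 * ψ) * Dk k (Dk k (X 0 * X 1 * X 2 * ψ))))

/-! ## F. geometry -/

/-- relabelling of the vertices -/
def PERMStmt : Prop :=
  ∀ (T : Set ℂ) (B : Bary T) (e : Equiv.Perm (Fin 3)), ∃ B' : Bary T, ∀ k, B'.c k = B.c (e k)

/-- ordered coefficients -/
def ORDStmt : Prop :=
  ∀ (T : Set ℂ) (B : Bary T), ∃ B' : Bary T, B'.c 2 ≤ B'.c 1 ∧ B'.c 1 ≤ B'.c 0 ∧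
    ((B.c 0 = B.c 1 ∧ B.c 1 = B.c 2) ↔ (B'.c 0 = B'.c 1 ∧ B'.c 1 = B'.c 2))

/-- equal coefficients mean equilateral -/
def EQDStmt : Prop :=
  ∀ A B C : ℂ, ∀ D : Bary (tri A B C), D.x 0 A = 1 → D.x 1 B = 1 → D.x 2 C = 1 →
    D.x 0 B = 0 → D.x 0 C = 0 → D.x 1 A = 0 → D.x 1 C = 0 → D.x 2 A = 0 → D.x 2 B = 0 →
    ((D.c 0 = D.c 1 ∧ D.c 1 = D.c 2) ↔ (dist A B = dist B C ∧ dist B C = dist C A))

/-- the strict inequality for the triangles with coefficient vector `s * chi typ u v` -/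
def Good (typ : Bool) (u v : ℝ) : Prop :=
  ∀ (T : Set ℂ) (B : Bary T) (w : ℂ → ℝ), IsExit T w → ∀ s : ℝ, 0 < s → (∀ k, B.c k = s * chi typ u v k) →
    lambda1 T * sSup (w '' T) < 8 * π ^ 2 / 27

/-- the two charts cover all triangles with ordered coefficients, `c 2 < (1 - 6/1000) c 0` -/
def CHRStmt : Prop :=
  (∀ u v : ℝ, 6 / 1000 ≤ u → u ≤ 84 / 100 → 0 ≤ v → v ≤ 1 → Good false u v) →
  (∀ u v : ℝ, 1 / 2 ≤ u → u < 1 → 0 < v → v ≤ 1 - u ^ 2 → v ≤ u * (116 / 100 - u) → Good true u v) → FarStmt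

/-- the final theorem from the three regions -/
def FINALStmt : Prop := NearStmt → EquiStmt → FarStmt → BaryStmt → ORDStmt → EQDStmt → FinalStmt

namespace K

/-! ## B. the positivity checker -/

def ROWStmt : Prop :=
  ∀ (α : Type) [AddCommMonoid α] (a b : ℕ) (l : List α),
    (∀ f : α →+ ℕ, row1 a b (l.map f) = (row1G a b l).map f ∧ row2 a b (l.map f) = (row2G a b l).map f) ∧
    (row1G a b l).length = l.length ∧ (row2G a b l).length = l.length ∧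
    ∀ (c : α →+ ℝ) (y z : ℝ),
      lin (A := ℝ) c (row1G a b l) y z = lin (A := ℝ) c l (z + a * y) (b * y) ∧
      lin (A := ℝ) c (row2G a b l) y z = lin (A := ℝ) c l (a * y) (z + b * y)

def TRStmt : Prop :=
  ∀ (α : Type) (P : List (List α)),
    (∀ (β : Type) (f : α → β), tr (P.map (List.map f)) = (tr P).map (List.map f) ∧
      toE3 (P.map (List.map f)) = (toE3 P).map (List.map f)) ∧
    ∀ n, Sh n P → Sh n (tr P) ∧ Sh n (toE3 P) ∧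
      ∀ (A M : Type) [CommSemiring A] [AddCommMonoid M] [Module A M] (f : α → M) (x y z : A),
        ter f (tr P) x y z = ter f P y x z ∧ ter f (toE3 P) x y z = ter f P y z x

def CHIStmt : Prop :=
  ∀ (α : Type) [AddCommMonoid α] (a b : ℕ) (P : List (List α)),
    (∀ f : α →+ ℕ, child1 a b (P.map (List.map f)) = (child1G a b P).map (List.map f) ∧
      child2 a b (P.map (List.map f)) = (child2G a b P).map (List.map f)) ∧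
    ∀ n, Sh n P → Sh n (child1G a b P) ∧ Sh n (child2G a b P) ∧
      ∀ (c : α →+ ℝ) (y1 y2 y3 : ℝ),
        ter (A := ℝ) c (child1G a b P) y1 y2 y3 = ter (A := ℝ) c P y2 (y3 + a * y1) (b * y1) ∧
        ter (A := ℝ) c (child2G a b P) y1 y2 y3 = ter (A := ℝ) c P y2 (a * y1) (y3 + b * y1)

/-- leaf test of packed numbers -/
def LEAFStmt : Prop :=
  ∀ (K2 K w m o z : ℕ) (q : ℕ → ℕ), (∀ k < m, q k ≤ K2 * o) → K ≤ K2 →
    z = ∑ k ∈ Finset.range m, (2 ^ (w + 1)) ^ k * q k →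
    okC K2 (Nat.pow 2 w) K (repW (Nat.pow 2 (Nat.succ w)) m)
      (Nat.mul (Nat.pow 2 w) (repW (Nat.pow 2 (Nat.succ w)) m)) o z = true →
    ∀ k < m, K * o ≤ q k

/-- soundness of the automatic bisection -/
def TREEStmt : Prop :=
  ∀ (α : Type) [AddCommMonoid α] (o z : α →+ ℕ) (c : α →+ ℝ) (f : ℕ → ℕ → Bool),
    (∀ x, f (o x) (z x) = true → 0 ≤ c x) →
    ∀ (fuel w1 w2 w3 n : ℕ) (P : List (List α)), 0 < w1 → 0 < w2 → 0 < w3 → Sh n P →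
      autoP f fuel w1 w2 w3 (P.map (List.map o)) (P.map (List.map z)) = true →
      ∀ y1 y2 y3 : ℝ, 0 ≤ y1 → 0 ≤ y2 → 0 ≤ y3 → 0 ≤ ter (A := ℝ) c P y1 y2 y3

/-- soundness of the bisection of binary forms -/
def TREEBStmt : Prop :=
  ∀ (α : Type) [AddCommMonoid α] (o z : α →+ ℕ) (c : α →+ ℝ) (f : ℕ → ℕ → Bool),
    (∀ x, f (o x) (z x) = true → 0 ≤ c x) →
    ∀ (fuel : ℕ) (l : List α), autoB f fuel (l.map o) (l.map z) = true →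
      ∀ y z' : ℝ, 0 ≤ y → 0 ≤ z' → 0 ≤ lin (A := ℝ) c l y z'

/-- soundness of the near/far tree of mode Q -/
def TREEQStmt : Prop :=
  ∀ (α : Type) [AddCommMonoid α] (o zA zB : α →+ ℕ) (I : Type) (cA cB : I → (α →+ ℝ)) (f : ℕ → ℕ → Bool),
    (∀ x, f (o x) (zA x) = true → ∀ i, 0 ≤ cA i x) → (∀ x, f (o x) (zB x) = true → ∀ i, 0 ≤ cB i x) →
    ∀ (n1 n2 n3 be n : ℕ) (P : List (List α)), 0 < n1 → 0 < n2 → 0 < n3 → 0 < be → Sh n P →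
      treeQ f n1 n2 n3 be (P.map (List.map o)) (P.map (List.map zA)) (P.map (List.map zB)) = true →
      ∀ y1 y2 y3 : ℝ, 0 ≤ y1 → 0 ≤ y2 → 0 ≤ y3 →
        (∀ i, 0 ≤ ter (A := ℝ) (cA i) P y1 y2 y3) ∨ (∀ i, 0 ≤ ter (A := ℝ) (cB i) P y1 y2 y3)

/-- the packed family of nets as one net over a monoid (pairs `(o, q)`, `q k ≤ 2 K o`) -/
def PACKStmt : Prop :=
  ∀ (K w n m : ℕ) (Ps : List Net), Ps ≠ [] → Ps.length = m → allR (bdN K) Ps = true → (∀ P ∈ Ps, Sh n P) →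
    ∃ (α : Type) (_ : AddCommMonoid α) (o z : α →+ ℕ) (c : ℕ → (α →+ ℝ)) (P : List (List α)),
      Sh n P ∧ P.map (List.map o) = oneN n ∧ P.map (List.map z) = packN K (Nat.pow 2 (Nat.succ w)) Ps ∧
      (∀ (k : ℕ) (hk : k < Ps.length) (x y t : ℝ), ter (A := ℝ) (c k) P x y t = evN (Ps[k]) x y t) ∧
      (∀ a : α, okC (Nat.mul 2 K) (Nat.pow 2 w) K (repW (Nat.pow 2 (Nat.succ w)) m)
        (Nat.mul (Nat.pow 2 w) (repW (Nat.pow 2 (Nat.succ w)) m)) (o a) (z a) = true → ∀ k < m, 0 ≤ c k a)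

/-- the same for two families with the same number of nets over the same monoid -/
def PACK2Stmt : Prop :=
  ∀ (K w n m : ℕ) (As Bs : List Net), As ≠ [] → As.length = m → Bs.length = m →
    allR (bdN K) As = true → allR (bdN K) Bs = true → (∀ P ∈ As, Sh n P) → (∀ P ∈ Bs, Sh n P) →
    ∃ (α : Type) (_ : AddCommMonoid α) (o zA zB : α →+ ℕ) (cA cB : ℕ → (α →+ ℝ)) (P : List (List α)),
      Sh n P ∧ P.map (List.map o) = oneN n ∧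
      P.map (List.map zA) = packN K (Nat.pow 2 (Nat.succ w)) As ∧
      P.map (List.map zB) = packN K (Nat.pow 2 (Nat.succ w)) Bs ∧
      (∀ (k : ℕ) (hk : k < As.length) (x y t : ℝ), ter (A := ℝ) (cA k) P x y t = evN (As[k]) x y t) ∧
      (∀ (k : ℕ) (hk : k < Bs.length) (x y t : ℝ), ter (A := ℝ) (cB k) P x y t = evN (Bs[k]) x y t) ∧
      (∀ a : α, okC (Nat.mul 2 K) (Nat.pow 2 w) K (repW (Nat.pow 2 (Nat.succ w)) m)
        (Nat.mul (Nat.pow 2 w) (repW (Nat.pow 2 (Nat.succ w)) m)) (o a) (zA a) = true → ∀ k < m, 0 ≤ cA k a) ∧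
      (∀ a : α, okC (Nat.mul 2 K) (Nat.pow 2 w) K (repW (Nat.pow 2 (Nat.succ w)) m)
        (Nat.mul (Nat.pow 2 w) (repW (Nat.pow 2 (Nat.succ w)) m)) (o a) (zB a) = true → ∀ k < m, 0 ≤ cB k a)

/-- the same for rows -/
def PACKRStmt : Prop :=
  ∀ (K w n m : ℕ) (Ps : List Row), Ps ≠ [] → Ps.length = m →
    allR (fun P => allR (fun x => Nat.ble (Int.natAbs x) K) P) Ps = true → (∀ P ∈ Ps, P.length = n) →
    ∃ (α : Type) (_ : AddCommMonoid α) (o z : α →+ ℕ) (c : ℕ → (α →+ ℝ)) (P : List α),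
      P.length = n ∧ P.map o = Nat.rec (motive := fun _ => List ℕ) [] (fun _ h => 1 :: h) n ∧
      P.map z = packR K (Nat.pow 2 (Nat.succ w)) Ps ∧
      (∀ (k : ℕ) (hk : k < Ps.length) (y t : ℝ), lin (A := ℝ) (c k) P y t = evR (Ps[k]) y t) ∧
      (∀ a : α, okC (Nat.mul 2 K) (Nat.pow 2 w) K (repW (Nat.pow 2 (Nat.succ w)) m)
        (Nat.mul (Nat.pow 2 w) (repW (Nat.pow 2 (Nat.succ w)) m)) (o a) (z a) = true → ∀ k < m, 0 ≤ c k a)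

def POSNStmt : Prop :=
  ∀ (K w fuel deg : ℕ) (Ps : List Net), posN K w fuel deg Ps = true → (∀ P ∈ Ps, Sh (deg + 1) P) →
    ∀ P ∈ Ps, ∀ x0 x1 x2 : ℝ, 0 ≤ x0 → 0 ≤ x1 → 0 ≤ x2 → 0 ≤ evN P x0 x1 x2

def POSRStmt : Prop :=
  ∀ (K w fuel deg : ℕ) (Ps : List Row), posR K w fuel deg Ps = true → (∀ P ∈ Ps, P.length = deg + 1) →
    ∀ P ∈ Ps, ∀ y z : ℝ, 0 ≤ y → 0 ≤ z → 0 ≤ evR P y z

def POSQStmt : Prop :=
  ∀ (Q : QD) (deg : ℕ) (As Bs : List Net), posQ Q deg As Bs = true → As.length = Bs.length →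
    (∀ P ∈ As, Sh (deg + 1) P) → (∀ P ∈ Bs, Sh (deg + 1) P) → 0 < Q.n1 → 0 < Q.n2 → 0 < Q.n3 → 0 < Q.be →
    ∀ x0 x1 x2 : ℝ, 0 ≤ x0 → 0 ≤ x1 → 0 ≤ x2 →
      (∀ P ∈ As, 0 ≤ evN P x0 x1 x2) ∨ (∀ P ∈ Bs, 0 ≤ evN P x0 x1 x2)

/-! ## C. algebra of nets and tables -/

def ALGAStmt : Prop :=
  (∀ (n : ℕ) (P Q : Net), Sh n P → Sh n Q → Sh n (addN P Q) ∧ toP (addN P Q) = toP P + toP Q) ∧
  (∀ (n : ℕ) (P Q : Net), Sh n P → Sh n Q → Sh n (subN P Q) ∧ toP (subN P Q) = toP P - toP Q) ∧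
  (∀ (n : ℕ) (c : ℤ) (P : Net), Sh n P → Sh n (smN c P) ∧ toP (smN c P) = (c : ℝ) • toP P)

def ALGMStmt : Prop :=
  (∀ (n m : ℕ) (P Q : Net), Sh (n + 1) P → Sh (m + 1) Q →
    Sh (n + m + 1) (mulN P Q) ∧ toP (mulN P Q) = toP P * toP Q) ∧
  (∀ n : ℕ, Sh (n + 1) (sig n) ∧ toP (sig n) = (X 0 + X 1 + X 2) ^ n)

def ALGDStmt : Prop :=
  ∀ (n : ℕ) (P : Net), Sh (n + 1) P →
    (Sh n (D1 P) ∧ toP (D1 P) = Dk 0 (toP P)) ∧ (Sh n (D2 P) ∧ toP (D2 P) = Dk 1 (toP P)) ∧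
    (Sh n (D3 P) ∧ toP (D3 P) = Dk 2 (toP P))

/-- value of the polynomial of a net, degree -/
def EVNStmt : Prop :=
  ∀ (n : ℕ) (P : Net), Sh (n + 1) P → (toP P).IsHomogeneous n ∧
    ∀ x : Fin 3 → ℝ, evx x (toP P) = evN P (x 0) (x 1) (x 2)

/-- tables of nets: sums, images, flattening -/
def TABAStmt : Prop :=
  (∀ (n a b : ℕ) (T T' : List (List Net)), ShT n a b T → ShT n a b T' →
    ShT n a b (addTN T T') ∧ ShT n a b (subTN T T') ∧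
    ∀ s s' t t' : ℝ, toPT (addTN T T') s s' t t' = toPT T s s' t t' + toPT T' s s' t t' ∧
      toPT (subTN T T') s s' t t' = toPT T s s' t t' - toPT T' s s' t t') ∧
  (∀ (n m a b : ℕ) (f : Net → Net) (L : MP →ₗ[ℝ] MP), (∀ P, Sh n P → Sh m (f P) ∧ toP (f P) = L (toP P)) →
    ∀ T, ShT n a b T → ShT m a b (mapTN f T) ∧ ∀ s s' t t' : ℝ, toPT (mapTN f T) s s' t t' = L (toPT T s s' t t')) ∧
  (∀ (n a b : ℕ) (T : Tab) (P : Net), Rect a b T → Sh n P →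
    ShT n a b (tabN T P) ∧ ∀ s s' t t' : ℝ, toPT (tabN T P) s s' t t' = evT T s s' t t' • toP P)

/-- products of tables -/
def TABMStmt : Prop :=
  (∀ (n a b a' b' : ℕ) (T : Tab) (S : List (List Net)), Rect (a + 1) (b + 1) T → ShT n (a' + 1) (b' + 1) S →
    ShT n (a + a' + 1) (b + b' + 1) (mulTN T S) ∧
    ∀ s s' t t' : ℝ, toPT (mulTN T S) s s' t t' = evT T s s' t t' • toPT S s s' t t') ∧
  (∀ (a b a' b' : ℕ) (T S : Tab), Rect (a + 1) (b + 1) T → Rect (a' + 1) (b' + 1) S →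
    Rect (a + a' + 1) (b + b' + 1) (mulT T S) ∧
    ∀ s s' t t' : ℝ, evT (mulT T S) s s' t t' = evT T s s' t t' * evT S s s' t t')

/-- tables of integers: sums, multiples, powers -/
def TABTStmt : Prop :=
  (∀ (a b : ℕ) (T S : Tab), Rect a b T → Rect a b S →
    Rect a b (addT T S) ∧ Rect a b (zw (zw Int.sub) T S) ∧
    ∀ s s' t t' : ℝ, evT (addT T S) s s' t t' = evT T s s' t t' + evT S s s' t t' ∧
      evT (zw (zw Int.sub) T S) s s' t t' = evT T s s' t t' - evT S s s' t t') ∧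
  (∀ (a b : ℕ) (c : ℤ) (T : Tab), Rect a b T →
    Rect a b (smT c T) ∧ Rect a b (mpT (Int.mul c) T) ∧
    ∀ s s' t t' : ℝ, evT (smT c T) s s' t t' = c * evT T s s' t t' ∧
      evT (mpT (Int.mul c) T) s s' t t' = c * evT T s s' t t') ∧
  (∀ a b : ℕ, Rect (a + 1) (b + 1) (oneT a b) ∧
    ∀ s s' t t' : ℝ, evT (oneT a b) s s' t t' = (s + s') ^ a * (t + t') ^ b)

/-- nonnegativity of a table of nets from its entries; positivity of a table of integers -/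
def TABPStmt : Prop :=
  (∀ (n a b : ℕ) (T : List (List Net)), ShT n a b T → ∀ s s' t t' : ℝ, 0 ≤ s → 0 ≤ s' → 0 ≤ t → 0 ≤ t' →
    ∀ x : Fin 3 → ℝ, (∀ P ∈ flat T, 0 ≤ evx x (toP P)) → 0 ≤ evx x (toPT T s s' t t')) ∧
  (∀ (a b : ℕ) (T : Tab), Rect (a + 1) (b + 1) T →
    allR (allR (fun x => Int.rec (motive := fun _ => Bool) (fun k => Nat.blt 0 k) (fun _ => false) x)) T = true →
    ∀ s s' t t' : ℝ, 0 ≤ s → 0 ≤ s' → 0 ≤ t → 0 ≤ t' → s + s' = 1 → t + t' = 1 → 0 < evT T s s' t t') ∧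
  (∀ (n a b : ℕ) (T : List (List Net)), ShT n a b T → ∀ P, P ∈ flat T ↔ ∃ r ∈ T, P ∈ r)

/-- the shape tests -/
def SHPStmt : Prop :=
  (∀ (α : Type) (n : ℕ) (P : List (List α)), shN n P = true ↔ Sh n P) ∧
  (∀ (α : Type) (a b : ℕ) (f : α → Bool) (T : List (List α)),
    rectB a b f T = true ↔ Rect a b T ∧ ∀ r ∈ T, ∀ x ∈ r, f x = true) ∧
  (∀ x : ℤ, posI x = true ↔ 0 < x) ∧
  (∀ b : BoxD, shape b = true ↔ ShT (b.n + 3) 3 3 b.P ∧ ShT (b.m + 1) 2 2 b.psi ∧ 0 < b.q ∧ 0 < b.D ∧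
    b.U0 < b.U1 ∧ b.V0 < b.V1) ∧
  (∀ Q : QD, shapeQ Q = true ↔ Rect 3 3 Q.mh ∧ Rect 3 3 Q.g1 ∧ Rect 3 3 Q.g2 ∧ 0 < Q.n1 ∧ 0 < Q.n2 ∧ 0 < Q.n3 ∧
    0 < Q.be ∧ 0 < Q.u11 ∧ 0 < del4 Q)

/-- the chart tables -/
def CHARTStmt : Prop :=
  ∀ (typ : Bool) (q U0 U1 V0 V1 : ℤ), 0 < q →
    Rect (Bool.rec (motive := fun _ => ℕ) 1 2 typ + 1) 2 (chart typ q U0 U1 V0 V1).1 ∧
    Rect (Bool.rec (motive := fun _ => ℕ) 1 2 typ + 1) 2 (chart typ q U0 U1 V0 V1).2.1 ∧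
    Rect (Bool.rec (motive := fun _ => ℕ) 1 2 typ + 1) 2 (chart typ q U0 U1 V0 V1).2.2 ∧
    ∀ s s' t t' : ℝ, s + s' = 1 → t + t' = 1 →
      evT (chart typ q U0 U1 V0 V1).1 s s' t t' = q ^ 2 * chi typ ((U0 * s' + U1 * s) / q) ((V0 * t' + V1 * t) / q) 0 ∧
      evT (chart typ q U0 U1 V0 V1).2.1 s s' t t' = q ^ 2 * chi typ ((U0 * s' + U1 * s) / q) ((V0 * t' + V1 * t) / q) 1 ∧
      evT (chart typ q U0 U1 V0 V1).2.2 s s' t t' = q ^ 2 * chi typ ((U0 * s' + U1 * s) / q) ((V0 * t' + V1 * t) / q) 2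

/-- the residual table -/
def RESIDStmt : Prop :=
  ∀ (typ : Bool) (q D : ℤ) (n : ℕ) (C1 C2 C3 : Tab) (P : List (List Net)),
    Rect (Bool.rec (motive := fun _ => ℕ) 1 2 typ + 1) 2 C1 → Rect (Bool.rec (motive := fun _ => ℕ) 1 2 typ + 1) 2 C2 →
    Rect (Bool.rec (motive := fun _ => ℕ) 1 2 typ + 1) 2 C3 → ShT (n + 3) 3 3 P →
    ShT (n + 1) (Bool.rec (motive := fun _ => ℕ) 1 2 typ + 3) 4 (resid typ q D n C1 C2 C3 P) ∧
    ∀ s s' t t' : ℝ, s + s' = 1 → t + t' = 1 →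
      toPT (resid typ q D n C1 C2 C3 P) s s' t t' =
        -(evT C1 s s' t t' • Dk 0 (Dk 0 (toPT P s s' t t')) + evT C2 s s' t t' • Dk 1 (Dk 1 (toPT P s s' t t')) +
          evT C3 s s' t t' • Dk 2 (Dk 2 (toPT P s s' t t'))) - (2 * (q : ℝ) ^ 2 * D) • (X 0 + X 1 + X 2) ^ n

/-- the supersolution of a box -/
def SUPStmt : Prop :=
  ∀ b : BoxD, shape b = true → chk2 b (chB b) = true → chkB b = true →
    ∀ s s' t t' : ℝ, 0 ≤ s → 0 ≤ s' → 0 ≤ t → 0 ≤ t' → s + s' = 1 → t + t' = 1 →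
    ∀ x : Fin 3 → ℝ, (∀ k, 0 ≤ x k) → x 0 + x 1 + x 2 = 1 →
      2 * (b.D : ℝ) ≤ -∑ k, chi b.typ ((b.U0 * s' + b.U1 * s) / b.q) ((b.V0 * t' + b.V1 * t) / b.q) k *
        evx x (Dk k (Dk k (toPT b.P s s' t t'))) ∧
      ((∃ k, x k = 0) → 0 ≤ evx x (toPT b.P s s' t t'))

/-- mode C: bound of the maximum -/
def MAXCStmt : Prop :=
  ∀ (b : BoxD) (M : Tab) (Km wm fm : ℕ), shape b = true → rectB 3 3 (fun _ => true) M = true →
    chkM b M Km wm fm = true →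
    ∀ s s' t t' : ℝ, 0 ≤ s → 0 ≤ s' → 0 ≤ t → 0 ≤ t' → s + s' = 1 → t + t' = 1 →
    ∀ x : Fin 3 → ℝ, (∀ k, 0 ≤ x k) → x 0 + x 1 + x 2 = 1 →
      evx x (toPT b.P s s' t t') ≤ evT M s s' t t'

/-- mode Q: bound of the maximum -/
def MAXQStmt : Prop :=
  ∀ (b : BoxD) (Q : QD), shape b = true → shapeQ Q = true → chkQ b Q = true →
    Rect 5 5 (MnQ Q) ∧
    ∀ s s' t t' : ℝ, 0 ≤ s → 0 ≤ s' → 0 ≤ t → 0 ≤ t' → s + s' = 1 → t + t' = 1 →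
    ∀ x : Fin 3 → ℝ, (∀ k, 0 ≤ x k) → x 0 + x 1 + x 2 = 1 →
      (del4 Q : ℝ) * evx x (toPT b.P s s' t t') ≤ evT (MnQ Q) s s' t t'

/-! ## D. Rayleigh quotients -/

/-- the factorial pairing of nets -/
def FACWStmt : Prop :=
  ∀ (m e : ℕ) (psi Q : Net), Sh (m + 1) psi → Sh (e + 1) Q →
    ((dotN Q (wN psi e (mp tl (tl (facN (m + e + 3))))) : ℤ) : ℝ) = facI (X 0 * X 1 * X 2 * toP psi * toP Q) ∧
    ((dotN Q (wN psi e (mp (fun r => tl (tl r)) (tl (tl (facN (m + e + 6)))))) : ℤ) : ℝ) =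
      facI ((X 0 * X 1 * X 2) ^ 2 * toP psi * toP Q)

def M123Stmt : Prop :=
  ∀ (m : ℕ) (psi : Net), Sh (m + 1) psi → Sh (m + 4) (m123 m psi) ∧ toP (m123 m psi) = X 0 * X 1 * X 2 * toP psi

/-- energy and mass tables -/
def ENMAStmt : Prop :=
  ∀ (m : ℕ) (psi : List (List Net)), ShT (m + 1) 2 2 psi →
    (∀ (a b : ℕ) (C : Tab × Tab × Tab), Rect (a + 1) (b + 1) C.1 → Rect (a + 1) (b + 1) C.2.1 → Rect (a + 1) (b + 1) C.2.2 →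
      Rect (a + 3) (b + 3) (enTab C m psi) ∧
      ∀ s s' t t' : ℝ, evT (enTab C m psi) s s' t t' =
        -(evT C.1 s s' t t' * facI ((X 0 * X 1 * X 2 * toPT psi s s' t t') * Dk 0 (Dk 0 (X 0 * X 1 * X 2 * toPT psi s s' t t'))) +
          evT C.2.1 s s' t t' * facI ((X 0 * X 1 * X 2 * toPT psi s s' t t') * Dk 1 (Dk 1 (X 0 * X 1 * X 2 * toPT psi s s' t t'))) +
          evT C.2.2 s s' t t' * facI ((X 0 * X 1 * X 2 * toPT psi s s' t t') * Dk 2 (Dk 2 (X 0 * X 1 * X 2 * toPT psi s s' t t'))))) ∧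
    Rect 3 3 (maTab m psi) ∧
    ∀ s s' t t' : ℝ, evT (maTab m psi) s s' t t' = facI ((X 0 * X 1 * X 2 * toPT psi s s' t t') ^ 2)

/-- the final numerical inequality -/
def FINStmt : Prop :=
  ∀ (Mn En Ma : Tab) (Md q : ℤ) (m a b a1 b1 a2 b2 : ℕ), Rect (a1 + 1) (b1 + 1) Mn → Rect (a2 + 1) (b2 + 1) En →
    Rect 3 3 Ma → a1 + a2 = a + 2 → b1 + b2 = b + 2 → fin Mn En Ma Md q m a b = true →
    ∀ s s' t t' : ℝ, 0 ≤ s → 0 ≤ s' → 0 ≤ t → 0 ≤ t' → s + s' = 1 → t + t' = 1 →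
      270000000 * ((2 * m + 7) * (2 * m + 8)) * (evT Mn s s' t t' * evT En s s' t t') <
        789568352 * Md * q ^ 2 * evT Ma s s' t t'

/-! ## G. boxes -/

/-- a supersolution with a bound `M` of its maximum and a Rayleigh quotient give the inequality -/
def CORStmt : Prop :=
  ∀ (b : BoxD) (Mn : Tab) (Md : ℤ) (a' b' : ℕ), shape b = true → chk2 b (chB b) = true → chkB b = true → 0 < Md →
    Rect (a' + 1) (b' + 1) Mn →
    (∀ s s' t t' : ℝ, 0 ≤ s → 0 ≤ s' → 0 ≤ t → 0 ≤ t' → s + s' = 1 → t + t' = 1 →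
      ∀ x : Fin 3 → ℝ, (∀ k, 0 ≤ x k) → x 0 + x 1 + x 2 = 1 →
        (Md : ℝ) * evx x (toPT b.P s s' t t') ≤ b.D * evT Mn s s' t t') →
    fin Mn (enTab (chB b) b.m b.psi) (maTab b.m b.psi) Md b.q b.m
      (a' + Bool.rec (motive := fun _ => ℕ) 1 2 b.typ) (b' + 1) = true →
    BoxGood b.typ b.q b.U0 b.U1 b.V0 b.V1

def BOXCStmt : Prop := ∀ (b : BoxD) (M : Tab) (Km wm fm : ℕ), OkC b M Km wm fm → BoxGood b.typ b.q b.U0 b.U1 b.V0 b.V1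

def BOXQStmt : Prop := ∀ (b : BoxD) (Q : QD), OkQ b Q → BoxGood b.typ b.q b.U0 b.U1 b.V0 b.V1

end K

end Pool.TRI
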